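import Pool.Agent.LibMA55.Defs
import Pool.Agent.LibHT55.R6

set_option autoImplicit false

open HT55

namespace MA55

/-- the dyadic piece with simplified conditions -/
def GE (H K L : ℝ) : Set (Fm × (ℤ × ℤ)) :=
  {T | BoxE (82432 * H) L T.1 ∧ T.2.2 ≠ 0 ∧ IsCoprime T.2.1 T.2.2 ∧ |(T.2.1 : ℝ)| * L ≤ 4 * K ∧
    |(T.2.2 : ℝ)| ≤ L * K ∧ (K ≤ 8 * (|(T.2.1 : ℝ)| * L) ∨ K * L ≤ 16 * |(T.2.2 : ℝ)|) ∧
    val T.1 T.2.1 T.2.2 = 1 ∧ invI T.1 = 0 ∧ invJ T.1 ≠ 0 ∧ (64 * H < K ^ 2 → T.1.1.1 ≠ 0)}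

theorem tr_sub (H K L : ℝ) (hH : 1 ≤ H) (hK : 1 ≤ K) (hL : 0 < L) : Tr H K L ⊆ GE H K L := by
  rintro ⟨F, P, Q⟩ ⟨lam, κ, hl1, hl2, hk1, hk2, ⟨ha2, hb, hc, hd, he⟩, ⟨hQ0, hcop, hQ, hP, hn, hv⟩,
    hI, hJ, ha⟩
  simp only at ha2 hb hc hd he hQ0 hcop hQ hP hn hv hI hJ ha
  have hH0 : 0 < H := by linarith
  have hK0 : 0 < K := by linarith
  have hlam : 0 < lam := by linarith
  have hκ : 0 < κ := by linarith
  have hLl : L ≤ 2 * lam := by linarith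
  have hL2 : L ^ 2 ≤ 4 * lam ^ 2 := by nlinarith
  have hL4 : L ^ 4 ≤ 16 * lam ^ 4 := by
    calc L ^ 4 = (L ^ 2) ^ 2 := by ring
      _ ≤ (4 * lam ^ 2) ^ 2 := by gcongr
      _ = 16 * lam ^ 4 := by ring
  have w3 : |(P : ℝ)| * L ≤ 4 * K := by
    have h1 : |(P : ℝ)| * L ≤ |(P : ℝ)| * (2 * lam) := by gcongr
    linarith
  have w4 : |(Q : ℝ)| ≤ L * K := by
    refine hQ.trans ?_
    gcongr
  have w5 : K ≤ 8 * (|(P : ℝ)| * L) ∨ K * L ≤ 16 * |(Q : ℝ)| := by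
    by_contra hcon
    push Not at hcon
    obtain ⟨c1, c2⟩ := hcon
    have h1 : K * L / 4 ≤ κ * lam := by
      have h2 : K / 2 * (L / 2) ≤ κ * lam := by
        apply mul_le_mul hk1 hl1.le (by positivity) hκ.le
      linarith
    have h2 : |(P : ℝ)| * lam ^ 2 ≤ |(P : ℝ)| * L ^ 2 := by gcongr
    have h3 : 8 * (|(P : ℝ)| * L) * L < K * L := mul_lt_mul_of_pos_right c1 hL
    have h4 : 8 * (|(P : ℝ)| * L) * L = 8 * (|(P : ℝ)| * L ^ 2) := by ring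
    linarith
  refine ⟨⟨?_, ?_, ?_, ?_, ?_⟩, hQ0, hcop, w3, w4, w5, hv, hI, hJ, ?_⟩
  · refine ha2.trans ?_
    have h1 : lam ^ 4 ≤ L ^ 4 := by gcongr
    have h2 : 5152 * H * lam ^ 4 ≤ 5152 * H * L ^ 4 := by gcongr
    have h3 : 0 ≤ H * L ^ 4 := by positivity
    linarith
  · refine hb.trans ?_
    have h2 : 5152 * H * lam ^ 2 ≤ 5152 * H * L ^ 2 := by gcongr
    have h3 : 0 ≤ H * L ^ 2 := by positivity
    linarith
  · linarith
  · have h1 : |(F.1.2.2.2 : ℝ)| * L ^ 2 ≤ |(F.1.2.2.2 : ℝ)| * (4 * lam ^ 2) := by gcongr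
    linarith
  · have h1 : |(F.2 : ℝ)| * L ^ 4 ≤ |(F.2 : ℝ)| * (16 * lam ^ 4) := by gcongr
    linarith
  · intro h
    apply ha
    have h1 : (K / 2) ^ 2 ≤ κ ^ 2 := by gcongr
    nlinarith

theorem ge_finite (H K L : ℝ) (hL : 0 < L) : (GE H K L).Finite := by
  have hsub : GE H K L ⊆ ((((bal (82432 * H * L ^ 4) ×ˢ bal (82432 * H * L ^ 2) ×ˢ bal (82432 * H) ×ˢ
      bal (82432 * H / L ^ 2)) ×ˢ bal (82432 * H / L ^ 4)) ×ˢ (bal (4 * K / L) ×ˢ bal (L * K)) :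
      Finset (Fm × (ℤ × ℤ))) : Set (Fm × (ℤ × ℤ))) := by
    rintro ⟨⟨⟨a, b, c, d⟩, e⟩, P, Q⟩ ⟨⟨h1, h2, h3, h4, h5⟩, -, -, h6, h7, -⟩
    simp only at h1 h2 h3 h4 h5 h6 h7
    rw [Finset.mem_coe]
    simp only [Finset.mem_product]
    refine ⟨⟨⟨mem_bal _ _ h1, mem_bal _ _ h2, mem_bal _ _ h3, mem_bal _ _ ?_⟩, mem_bal _ _ ?_⟩,
      mem_bal _ _ ?_, mem_bal _ _ h7⟩
    · rw [le_div_iff₀ (by positivity)]; exact h4
    · rw [le_div_iff₀ (by positivity)]; exact h5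
    · rw [le_div_iff₀ hL]; exact h6
  exact (Finset.finite_toSet _).subset hsub

/-- differences of two forms with the same vector -/
theorem diff {H K L : ℝ} (hH : 1 ≤ H) (hK : 1 ≤ K) (hL : 0 < L) {a b c d e a' b' c' d' e' P Q : ℤ}
    (hT : ((((a, b, c, d), e), (P, Q)) : Fm × (ℤ × ℤ)) ∈ GE H K L)
    (hT' : ((((a', b', c', d'), e'), (P, Q)) : Fm × (ℤ × ℤ)) ∈ GE H K L) :
    ∃ h0 h1 h2 h3 : ℤ, a - a' = Q * h0 ∧ 4 * (b - b') = Q * h1 - P * h0 ∧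
      6 * (c - c') = Q * h2 - P * h1 ∧ 4 * (d - d') = Q * h3 - P * h2 ∧ e - e' = -(P * h3) ∧
      |(h0 : ℝ)| ≤ 4260880 * (12 * (82432 * H)) / K * L ^ 3 ∧
      |(h1 : ℝ)| ≤ 4260880 * (12 * (82432 * H)) / K * L ∧
      |(h2 : ℝ)| ≤ 4260880 * (12 * (82432 * H)) / K / L ∧
      |(h3 : ℝ)| ≤ 4260880 * (12 * (82432 * H)) / K / L ^ 3 := by
  obtain ⟨⟨f0, f1, f2, f3, f4⟩, hQ0, hc, hP, hQ, hn, fv, -, -, -⟩ := hT
  obtain ⟨⟨g0, g1, g2, g3, g4⟩, -, -, -, -, -, gv, -, -, -⟩ := hT'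
  obtain ⟨E, hE⟩ : ∃ E : ℝ, E = 82432 * H := ⟨_, rfl⟩
  rw [← hE] at f0 f1 f2 f3 f4 g0 g1 g2 g3 g4
  rw [← hE]
  have hE0 : 0 ≤ E := by rw [hE]; positivity
  simp only [val] at f0 f1 f2 f3 f4 fv g0 g1 g2 g3 g4 gv hQ0 hc hP hQ hn
  obtain ⟨h0, h1, h2, h3, e0, e1, e2, e3, e4⟩ := factor (g0 := a - a') (g1 := 4 * (b - b'))
    (g2 := 6 * (c - c')) (g3 := 4 * (d - d')) (g4 := e - e') hQ0 hc (by linear_combination fv - gv)
  have r0 : ((a : ℝ) - a') = Q * h0 := by exact_mod_cast e0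
  have r1 : (4 * ((b : ℝ) - b')) = Q * h1 - P * h0 := by exact_mod_cast e1
  have r2 : (6 * ((c : ℝ) - c')) = Q * h2 - P * h1 := by exact_mod_cast e2
  have r3 : (4 * ((d : ℝ) - d')) = Q * h3 - P * h2 := by exact_mod_cast e3
  have r4 : ((e : ℝ) - e') = -(P * h3) := by exact_mod_cast e4
  have hL2 : 0 < L ^ 2 := by positivity
  have hL4 : 0 < L ^ 4 := by positivity
  have q := quot_bound (D := 12 * E) (K := K) (L := L) (P := P) (Q := Q) (by positivity)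
    (by linarith) hL
    (g0 := (a : ℝ) - a') (g1 := 4 * ((b : ℝ) - b')) (g2 := 6 * ((c : ℝ) - c'))
    (g3 := 4 * ((d : ℝ) - d')) (g4 := (e : ℝ) - e') (h0 := h0) (h1 := h1) (h2 := h2) (h3 := h3)
    (by
      have := abs_sub (a : ℝ) a'
      have : 0 ≤ E * L ^ 4 := by positivity
      linarith)
    (by
      rw [abs_mul, abs_of_pos (by norm_num : (0 : ℝ) < 4)]
      have := abs_sub (b : ℝ) b'
      have : 0 ≤ E * L ^ 2 := by positivity
      linarith)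
    (by
      rw [abs_mul, abs_of_pos (by norm_num : (0 : ℝ) < 6)]
      have := abs_sub (c : ℝ) c'
      linarith)
    (by
      rw [abs_mul, abs_of_pos (by norm_num : (0 : ℝ) < 4)]
      have h5 := mul_le_mul_of_nonneg_right (abs_sub (d : ℝ) d') hL2.le
      rw [add_mul] at h5
      linarith)
    (by
      have h5 := mul_le_mul_of_nonneg_right (abs_sub (e : ℝ) e') hL4.le
      rw [add_mul] at h5
      linarith)
    hP hQ hn r0 r1 r2 r3 r4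
  exact ⟨h0, h1, h2, h3, e0, e1, e2, e3, e4, q⟩

/-- the divisor bound -/
theorem idiv_le (ε : ℝ) (hε : 0 < ε) (m : ℕ) (B : ℝ) (hB : 0 ≤ B) : ∃ C : ℝ, 0 ≤ C ∧
    ∀ (Y : ℝ) (n : ℤ), 1 ≤ Y → n ≠ 0 → |(n : ℝ)| ≤ B * Y ^ m →
      ((idiv n).card : ℝ) ≤ C * Y ^ ε := by
  obtain ⟨C, hC, hdiv⟩ := Pool.Agent.LibHLP.exists_card_divisors_le (ε / (m + 1)) (by positivity)
  refine ⟨2 * C * B ^ (ε / (m + 1)), by positivity, fun Y n hY hn hnB => ?_⟩
  have hY0 : 0 < Y := by linarith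
  have h1 := hdiv n.natAbs (Int.natAbs_ne_zero.2 hn)
  have h2 : ((n.natAbs : ℕ) : ℝ) = |(n : ℝ)| := by
    rw [Nat.cast_natAbs]
    push_cast
    rfl
  have h3 : ((n.natAbs : ℕ) : ℝ) ^ (ε / (m + 1)) ≤ B ^ (ε / (m + 1)) * Y ^ ε := by
    rw [h2]
    calc |(n : ℝ)| ^ (ε / (m + 1)) ≤ (B * Y ^ m) ^ (ε / (m + 1)) :=
          Real.rpow_le_rpow (abs_nonneg _) hnB (by positivity)
      _ = B ^ (ε / (m + 1)) * (Y ^ m) ^ (ε / (m + 1)) := Real.mul_rpow hB (by positivity)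
      _ = B ^ (ε / (m + 1)) * Y ^ ((m : ℝ) * (ε / (m + 1))) := by
          rw [← Real.rpow_natCast, ← Real.rpow_mul hY0.le]
      _ ≤ B ^ (ε / (m + 1)) * Y ^ ε := by
          apply mul_le_mul_of_nonneg_left _ (by positivity)
          apply Real.rpow_le_rpow_of_exponent_le hY
          rw [mul_div_assoc', div_le_iff₀ (by positivity)]
          nlinarith
  calc ((idiv n).card : ℝ) ≤ ((2 * n.natAbs.divisors.card : ℕ) : ℝ) := by
        exact_mod_cast card_idiv n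
    _ = 2 * (n.natAbs.divisors.card : ℝ) := by push_cast; ring
    _ ≤ 2 * (C * (B ^ (ε / (m + 1)) * Y ^ ε)) := by
        have : C * ((n.natAbs : ℕ) : ℝ) ^ (ε / (m + 1)) ≤ C * (B ^ (ε / (m + 1)) * Y ^ ε) := by
          gcongr
        linarith
    _ = _ := by ring

/-- the number of pairs with bounded product -/
theorem prod_pairs (ε : ℝ) (hε : 0 < ε) : ∃ C : ℝ, 0 ≤ C ∧ ∀ (M : ℝ) (S : Finset (ℤ × ℤ)), 1 ≤ M →
    (∀ p ∈ S, p.1 * p.2 ≠ 0 ∧ |((p.1 * p.2 : ℤ) : ℝ)| ≤ M) → (S.card : ℝ) ≤ C * (M * M ^ ε) := by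
  classical
  obtain ⟨C, hC, hd⟩ := idiv_le ε hε 1 1 zero_le_one
  refine ⟨3 * C, by positivity, fun M S hM hS => ?_⟩
  have hM0 : 0 < M := by linarith
  have hle : (S.card : ℝ) ≤ ((bal M).card : ℝ) * (C * M ^ ε) := by
    have h1 : S.card = ∑ n ∈ bal M, (S.filter (fun p => p.1 * p.2 = n)).card := by
      apply Finset.card_eq_sum_card_fiberwise
      intro p hp
      exact mem_bal _ _ (hS p hp).2
    have h2 : ∀ n ∈ bal M, ((S.filter (fun p => p.1 * p.2 = n)).card : ℝ) ≤ C * M ^ ε := by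
      intro n _
      rcases (S.filter (fun p => p.1 * p.2 = n)).eq_empty_or_nonempty with h0 | ⟨p0, hp0⟩
      · rw [h0, Finset.card_empty]
        push_cast
        positivity
      rw [Finset.mem_filter] at hp0
      have hn0 : n ≠ 0 := by rw [← hp0.2]; exact (hS p0 hp0.1).1
      have hnM : |(n : ℝ)| ≤ 1 * M ^ 1 := by
        rw [one_mul, pow_one, ← hp0.2]
        exact (hS p0 hp0.1).2
      refine le_trans ?_ (hd M n hM hn0 hnM)
      have h3 : (S.filter (fun p => p.1 * p.2 = n)).card ≤ (idiv n).card := by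
        apply Finset.card_le_card_of_injOn (fun p => p.1)
        · intro p hp
          rw [Finset.mem_coe, Finset.mem_filter] at hp
          exact mem_idiv hn0 ⟨p.2, hp.2.symm⟩
        · rintro ⟨a, b⟩ hp ⟨a', b'⟩ hp' h
          rw [Finset.mem_coe, Finset.mem_filter] at hp hp'
          simp only at h hp hp'
          subst h
          have h4 : a * b = a * b' := by rw [hp.2, hp'.2]
          have ha : a ≠ 0 := by
            intro ha
            apply hn0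
            rw [← hp.2, ha, zero_mul]
          rw [mul_left_cancel₀ ha h4]
      exact_mod_cast h3
    calc (S.card : ℝ) = ∑ n ∈ bal M, ((S.filter (fun p => p.1 * p.2 = n)).card : ℝ) := by
          rw [h1]
          push_cast
          rfl
      _ ≤ ∑ _n ∈ bal M, C * M ^ ε := Finset.sum_le_sum h2
      _ = ((bal M).card : ℝ) * (C * M ^ ε) := by rw [Finset.sum_const, nsmul_eq_mul]
  have h3 := card_bal M hM0.le
  calc (S.card : ℝ) ≤ ((bal M).card : ℝ) * (C * M ^ ε) := hle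
    _ ≤ (3 * M) * (C * M ^ ε) := by
        gcongr
        linarith
    _ = 3 * C * (M * M ^ ε) := by ring

/-- counting by fibres -/
theorem card_fib {α β : Type} [DecidableEq β] (S : Finset α) (I : Finset β) (f : α → β) (n : ℝ)
    (hn0 : 0 ≤ n) (hf : ∀ a ∈ S, f a ∈ I)
    (hn : ∀ b ∈ I, ((S.filter (fun a => f a = b)).card : ℝ) ≤ n) : (S.card : ℝ) ≤ I.card * n := by
  have h1 : S.card = ∑ b ∈ I, (S.filter (fun a => f a = b)).card :=
    Finset.card_eq_sum_card_fiberwise fun a ha => hf a ha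
  calc (S.card : ℝ) = ∑ b ∈ I, ((S.filter (fun a => f a = b)).card : ℝ) := by
        rw [h1]
        push_cast
        rfl
    _ ≤ ∑ _b ∈ I, n := Finset.sum_le_sum hn
    _ = I.card * n := by rw [Finset.sum_const, nsmul_eq_mul]

end MA55
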