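import Pool.Agent.LibMA55.C1

set_option autoImplicit false

open HT55

namespace MA55

/-- a set of pairs of signs -/
def sg : Finset ℤ := {1, -1}

theorem mem_sg {q : ℤ} (h : q = 1 ∨ q = -1) : q ∈ sg := by
  rw [sg, Finset.mem_insert, Finset.mem_singleton]
  exact h

theorem card_sg : sg.card ≤ 2 := Finset.card_le_two

/-- forms with `P = 0` -/
theorem count_zero (ε : ℝ) (hε : 0 < ε) : ∃ C : ℝ, 0 ≤ C ∧ ∀ (H K L : ℝ) (S : Finset (Fm × (ℤ × ℤ))),
    1 ≤ H → 1 ≤ K → 0 < L → L ≤ 1 → (∀ T ∈ S, T ∈ GE H K L ∧ T.2.1 = 0) →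
    (S.card : ℝ) ≤ C * (H * K) ^ ε * H ^ 2 := by
  classical
  obtain ⟨C, hC, hd⟩ := idiv_le ε hε 2 (4 * 82432 ^ 2) (by positivity)
  refine ⟨2 * (9 * 82432 ^ 2) * C + 2 * (9 * 82432 ^ 2) + 2 * (9 * 82432 ^ 2), by positivity, ?_⟩
  intro H K L S hH hK hL hL1 hS
  have hH0 : 0 < H := by linarith
  have hK0 : 0 < K := by linarith
  obtain ⟨E, hE⟩ : ∃ E : ℝ, E = 82432 * H := ⟨_, rfl⟩
  have hE1 : 1 ≤ E := by rw [hE]; linarith
  have hE0 : 0 < E := by linarith
  have hL2 : L ^ 2 ≤ 1 := pow_le_one₀ hL.le hL1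
  have hL4 : L ^ 4 ≤ 1 := pow_le_one₀ hL.le hL1
  have hs1 : 1 ≤ (H * K) ^ ε := Real.one_le_rpow (by nlinarith) hε.le
  -- the data of an element
  have hdat : ∀ T ∈ S, T.2.1 = 0 ∧ (T.2.2 = 1 ∨ T.2.2 = -1) ∧ T.1.2 = 1 ∧
      |(T.1.1.1 : ℝ)| ≤ E * L ^ 4 ∧ |(T.1.1.2.1 : ℝ)| ≤ E ∧ |(T.1.1.2.2.1 : ℝ)| ≤ E ∧
      |(T.1.1.2.2.2 : ℝ)| ≤ E / L ^ 2 ∧
      T.1.1.1 = 4 * T.1.1.2.1 * T.1.1.2.2.2 - 3 * T.1.1.2.2.1 ^ 2 ∧ invJ T.1 ≠ 0 := by
    rintro ⟨⟨⟨a, b, c, d⟩, e⟩, P, Q⟩ hT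
    obtain ⟨⟨⟨f0, f1, f2, f3, f4⟩, hQ0, hc, -, -, -, fv, hI, hJ, -⟩, hP⟩ := hS _ hT
    rw [← hE] at f0 f1 f2 f3 f4
    simp only [val, invI] at f0 f1 f2 f3 f4 fv hQ0 hc hI hP ⊢
    subst hP
    have hQ : Q = 1 ∨ Q = -1 := by
      rw [isCoprime_zero_left] at hc
      exact Int.isUnit_iff.1 hc
    have he : e = 1 := by
      rcases hQ with h | h
      · rw [h] at fv
        linear_combination fv
      · rw [h] at fv
        linear_combination fv
    refine ⟨rfl, hQ, he, f0, ?_, f2, ?_, ?_, hJ⟩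
    · refine f1.trans ?_
      calc E * L ^ 2 ≤ E * 1 := by gcongr
        _ = E := mul_one E
    · rw [le_div_iff₀ (by positivity)]; exact f3
    · rw [he] at hI
      linear_combination hI
  -- first part: `b d ≠ 0`
  have p1 : ((S.filter (fun T => T.1.1.2.1 * T.1.1.2.2.2 ≠ 0)).card : ℝ) ≤
      2 * (9 * E ^ 2) * (C * (H * K) ^ ε) := by
    have h1 := card_fib (S.filter (fun T => T.1.1.2.1 * T.1.1.2.2.2 ≠ 0))
      (bal E ×ˢ (bal E ×ˢ sg)) (fun T => (T.1.1.1, T.1.1.2.2.1, T.2.2)) (C * (H * K) ^ ε)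
      (by positivity) (by
        intro T hT
        rw [Finset.mem_filter] at hT
        obtain ⟨-, g2, -, g4, -, g6, -, -, -⟩ := hdat T hT.1
        rw [Finset.mem_product, Finset.mem_product]
        refine ⟨mem_bal _ _ (g4.trans ?_), mem_bal _ _ g6, mem_sg g2⟩
        calc E * L ^ 4 ≤ E * 1 := by gcongr
          _ = E := mul_one E) (by
        rintro ⟨a, c, Q⟩ _
        rcases ((S.filter (fun T => T.1.1.2.1 * T.1.1.2.2.2 ≠ 0)).filter
          (fun T => (T.1.1.1, T.1.1.2.2.1, T.2.2) = (a, c, Q))).eq_empty_or_nonempty with h0 | ⟨T0, hT0⟩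
        · rw [h0, Finset.card_empty]
          push_cast
          positivity
        rw [Finset.mem_filter, Finset.mem_filter] at hT0
        obtain ⟨⟨hT0, hne⟩, heq⟩ := hT0
        obtain ⟨-, -, -, g4, -, g6, -, g8, -⟩ := hdat T0 hT0
        simp only [Prod.mk.injEq] at heq
        obtain ⟨e1, e2, e3⟩ := heq
        have hn0 : a + 3 * c ^ 2 ≠ 0 := by
          rw [← e1, ← e2, g8]
          intro h
          apply hne
          have : 4 * (T0.1.1.2.1 * T0.1.1.2.2.2) = 0 := by linear_combination h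
          omega
        have hnb : |((a + 3 * c ^ 2 : ℤ) : ℝ)| ≤ 4 * 82432 ^ 2 * (H * K) ^ 2 := by
          rw [e1] at g4
          rw [e2] at g6
          push_cast
          refine (abs_add_le _ _).trans ?_
          rw [abs_mul, abs_pow]
          have k1 : |(a : ℝ)| ≤ E ^ 2 := by
            calc |(a : ℝ)| ≤ E * L ^ 4 := g4
              _ ≤ E * 1 := by gcongr
              _ ≤ E * E := by gcongr
              _ = E ^ 2 := by ring
          have k2 : |(c : ℝ)| ^ 2 ≤ E ^ 2 := by gcongr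
          have k3 : |(3 : ℝ)| = 3 := by norm_num
          rw [k3]
          have k4 : E ^ 2 ≤ 82432 ^ 2 * (H * K) ^ 2 := by
            rw [hE, mul_pow, mul_pow]
            have : 1 ≤ K ^ 2 := one_le_pow₀ hK
            have : H ^ 2 * 1 ≤ H ^ 2 * K ^ 2 := by gcongr
            nlinarith
          linarith
        refine le_trans ?_ (hd (H * K) (a + 3 * c ^ 2) (by nlinarith) hn0 hnb)
        norm_cast
        apply Finset.card_le_card_of_injOn (fun T => T.1.1.2.1)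
        · intro T hT
          rw [Finset.mem_coe, Finset.mem_filter, Finset.mem_filter] at hT
          obtain ⟨⟨hT, -⟩, heq⟩ := hT
          obtain ⟨-, -, -, -, -, -, -, g8, -⟩ := hdat T hT
          simp only [Prod.mk.injEq] at heq
          obtain ⟨e1, e2, e3⟩ := heq
          refine mem_idiv hn0 ⟨4 * T.1.1.2.2.2, ?_⟩
          rw [← e1, ← e2, g8]
          ring
        · rintro ⟨⟨⟨a1, b1, c1, d1⟩, e1⟩, P1, Q1⟩ hT ⟨⟨⟨a2, b2, c2, d2⟩, e2⟩, P2, Q2⟩ hT' hb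
          rw [Finset.mem_coe, Finset.mem_filter, Finset.mem_filter] at hT hT'
          obtain ⟨⟨hT, hne1⟩, heq⟩ := hT
          obtain ⟨⟨hT', hne2⟩, heq'⟩ := hT'
          obtain ⟨r1, -, r3, -, -, -, -, r8, -⟩ := hdat _ hT
          obtain ⟨s1, -, s3, -, -, -, -, s8, -⟩ := hdat _ hT'
          simp only [Prod.mk.injEq] at heq heq' hb r1 r3 r8 s1 s3 s8 hne1 hne2
          obtain ⟨u1, u2, u3⟩ := heq
          obtain ⟨v1, v2, v3⟩ := heq'
          subst u1 u2 u3 v1 v2 v3 hb r1 s1 r3 s3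
          have hb0 : b1 ≠ 0 := fun h => hne1 (by rw [h, zero_mul])
          have h5 : b1 * d1 = b1 * d2 := by
            have : 4 * (b1 * d1) = 4 * (b1 * d2) := by linear_combination s8 - r8
            omega
          have h6 := mul_left_cancel₀ hb0 h5
          rw [h6])
    refine h1.trans ?_
    have h2 : ((bal E ×ˢ (bal E ×ˢ sg)).card : ℝ) ≤ 2 * (9 * E ^ 2) := by
      rw [Finset.card_product, Finset.card_product]
      push_cast
      have c1 := card_bal E hE0.le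
      have c2 : ((sg.card : ℕ) : ℝ) ≤ 2 := by exact_mod_cast card_sg
      calc ((bal E).card : ℝ) * (((bal E).card : ℝ) * (sg.card : ℝ)) ≤ (3 * E) * ((3 * E) * 2) := by
            have c3 : ((bal E).card : ℝ) ≤ 3 * E := by linarith
            gcongr
        _ = 2 * (9 * E ^ 2) := by ring
    gcongr
  -- second part: `d = 0`
  have p2 : ((S.filter (fun T => T.1.1.2.2.2 = 0)).card : ℝ) ≤ 2 * (9 * E ^ 2) := by
    have h1 := card_fib (S.filter (fun T => T.1.1.2.2.2 = 0))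
      (bal E ×ˢ (bal E ×ˢ sg)) (fun T => (T.1.1.2.1, T.1.1.2.2.1, T.2.2)) 1
      zero_le_one (by
        intro T hT
        rw [Finset.mem_filter] at hT
        obtain ⟨-, g2, -, -, g5, g6, -, -, -⟩ := hdat T hT.1
        rw [Finset.mem_product, Finset.mem_product]
        exact ⟨mem_bal _ _ g5, mem_bal _ _ g6, mem_sg g2⟩) (by
        rintro ⟨b, c, Q⟩ _
        have : ((S.filter (fun T => T.1.1.2.2.2 = 0)).filter
          (fun T => (T.1.1.2.1, T.1.1.2.2.1, T.2.2) = (b, c, Q))).card ≤ 1 := by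
          rw [Finset.card_le_one]
          rintro ⟨⟨⟨a1, b1, c1, d1⟩, e1⟩, P1, Q1⟩ hT ⟨⟨⟨a2, b2, c2, d2⟩, e2⟩, P2, Q2⟩ hT'
          rw [Finset.mem_filter, Finset.mem_filter] at hT hT'
          obtain ⟨⟨hT, hne1⟩, heq⟩ := hT
          obtain ⟨⟨hT', hne2⟩, heq'⟩ := hT'
          obtain ⟨r1, -, r3, -, -, -, -, r8, -⟩ := hdat _ hT
          obtain ⟨s1, -, s3, -, -, -, -, s8, -⟩ := hdat _ hT'
          simp only [Prod.mk.injEq] at heq heq' r1 r3 r8 s1 s3 s8 hne1 hne2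
          obtain ⟨u1, u2, u3⟩ := heq
          obtain ⟨v1, v2, v3⟩ := heq'
          rw [r8, s8, r1, s1, r3, s3, u1, u2, u3, v1, v2, v3, hne1, hne2]
        exact_mod_cast this)
    refine h1.trans ?_
    rw [mul_one, Finset.card_product, Finset.card_product]
    push_cast
    have c1 := card_bal E hE0.le
    have c2 : ((sg.card : ℕ) : ℝ) ≤ 2 := by exact_mod_cast card_sg
    calc ((bal E).card : ℝ) * (((bal E).card : ℝ) * (sg.card : ℝ)) ≤ (3 * E) * ((3 * E) * 2) := by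
          have c3 : ((bal E).card : ℝ) ≤ 3 * E := by linarith
          gcongr
      _ = 2 * (9 * E ^ 2) := by ring
  -- third part: `b = 0`
  have p3 : ((S.filter (fun T => T.1.1.2.1 = 0)).card : ℝ) ≤ 2 * (9 * E ^ 2) := by
    rcases (S.filter (fun T => T.1.1.2.1 = 0)).eq_empty_or_nonempty with h0 | ⟨T0, hT0⟩
    · rw [h0, Finset.card_empty]
      push_cast
      positivity
    -- `c ≠ 0` and `3 c^2 ≤ E L^4`
    have hc3 : ∀ T ∈ S, T.1.1.2.1 = 0 → T.1.1.2.2.1 ≠ 0 ∧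
        3 * (T.1.1.2.2.1 : ℝ) ^ 2 ≤ E * L ^ 4 := by
      intro T hT hb
      obtain ⟨-, -, g3, g4, -, -, -, g8, g9⟩ := hdat T hT
      rw [hb] at g8
      constructor
      · intro hc
        apply g9
        unfold invJ
        rw [g8, hb, hc]
        ring
      · have h1 : (T.1.1.1 : ℝ) = -(3 * (T.1.1.2.2.1 : ℝ) ^ 2) := by
          have : T.1.1.1 = -(3 * T.1.1.2.2.1 ^ 2) := by rw [g8]; ring
          exact_mod_cast this
        rw [h1, abs_neg, abs_of_nonneg (by positivity)] at g4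
        exact g4
    obtain ⟨s, hs⟩ : ∃ s, s = √E := ⟨_, rfl⟩
    have hs2 : s ^ 2 = E := by rw [hs]; exact Real.sq_sqrt hE0.le
    have hs1' : 1 ≤ s := by rw [hs]; exact Real.one_le_sqrt.2 hE1
    have hcb : ∀ T ∈ S, T.1.1.2.1 = 0 → |(T.1.1.2.2.1 : ℝ)| ≤ s * L ^ 2 := by
      intro T hT hb
      have h1 := (hc3 T hT hb).2
      have h2 : |(T.1.1.2.2.1 : ℝ)| ^ 2 ≤ (s * L ^ 2) ^ 2 := by
        rw [sq_abs, mul_pow, hs2]
        have h3 : 0 ≤ (T.1.1.2.2.1 : ℝ) ^ 2 := sq_nonneg _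
        calc (T.1.1.2.2.1 : ℝ) ^ 2 ≤ E * L ^ 4 := by linarith
          _ = E * (L ^ 2) ^ 2 := by ring
      exact le_of_pow_le_pow_left₀ (by norm_num) (by positivity) h2
    have hsL : 1 ≤ s * L ^ 2 := by
      rw [Finset.mem_filter] at hT0
      refine le_trans ?_ (hcb T0 hT0.1 hT0.2)
      have := Int.one_le_abs (hc3 T0 hT0.1 hT0.2).1
      exact_mod_cast this
    have h1 := card_fib (S.filter (fun T => T.1.1.2.1 = 0))
      (bal (s * L ^ 2) ×ˢ (bal (E / L ^ 2) ×ˢ sg)) (fun T => (T.1.1.2.2.1, T.1.1.2.2.2, T.2.2)) 1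
      zero_le_one (by
        intro T hT
        rw [Finset.mem_filter] at hT
        obtain ⟨-, g2, -, -, -, -, g7, -, -⟩ := hdat T hT.1
        rw [Finset.mem_product, Finset.mem_product]
        exact ⟨mem_bal _ _ (hcb T hT.1 hT.2), mem_bal _ _ g7, mem_sg g2⟩) (by
        rintro ⟨c, d, Q⟩ _
        have : ((S.filter (fun T => T.1.1.2.1 = 0)).filter
          (fun T => (T.1.1.2.2.1, T.1.1.2.2.2, T.2.2) = (c, d, Q))).card ≤ 1 := by
          rw [Finset.card_le_one]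
          rintro ⟨⟨⟨a1, b1, c1, d1⟩, e1⟩, P1, Q1⟩ hT ⟨⟨⟨a2, b2, c2, d2⟩, e2⟩, P2, Q2⟩ hT'
          rw [Finset.mem_filter, Finset.mem_filter] at hT hT'
          obtain ⟨⟨hT, hne1⟩, heq⟩ := hT
          obtain ⟨⟨hT', hne2⟩, heq'⟩ := hT'
          obtain ⟨r1, -, r3, -, -, -, -, r8, -⟩ := hdat _ hT
          obtain ⟨s1, -, s3, -, -, -, -, s8, -⟩ := hdat _ hT'
          simp only [Prod.mk.injEq] at heq heq' r1 r3 r8 s1 s3 s8 hne1 hne2
          obtain ⟨u1, u2, u3⟩ := heq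
          obtain ⟨v1, v2, v3⟩ := heq'
          rw [r8, s8, r1, s1, r3, s3, u1, u2, u3, v1, v2, v3, hne1, hne2]
        exact_mod_cast this)
    refine h1.trans ?_
    rw [mul_one, Finset.card_product, Finset.card_product]
    push_cast
    have c1 := card_bal (s * L ^ 2) (by positivity)
    have c1' := card_bal (E / L ^ 2) (by positivity)
    have c2 : ((sg.card : ℕ) : ℝ) ≤ 2 := by exact_mod_cast card_sg
    have hEL : 1 ≤ E / L ^ 2 := by
      rw [le_div_iff₀ (by positivity)]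
      linarith
    have hsE : s ≤ E := by rw [← hs2]; nlinarith
    calc ((bal (s * L ^ 2)).card : ℝ) * (((bal (E / L ^ 2)).card : ℝ) * (sg.card : ℝ)) ≤
        (3 * (s * L ^ 2)) * ((3 * (E / L ^ 2)) * 2) := by
          have c3 : ((bal (s * L ^ 2)).card : ℝ) ≤ 3 * (s * L ^ 2) := by linarith
          have c4 : ((bal (E / L ^ 2)).card : ℝ) ≤ 3 * (E / L ^ 2) := by linarith
          gcongr
      _ = 18 * (s * E) := by field_simp; ring
      _ ≤ 18 * (E * E) := by gcongr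
      _ = 2 * (9 * E ^ 2) := by ring
  -- sum
  have hsub : S ⊆ (S.filter (fun T => T.1.1.2.1 * T.1.1.2.2.2 ≠ 0)) ∪
      ((S.filter (fun T => T.1.1.2.2.2 = 0)) ∪ (S.filter (fun T => T.1.1.2.1 = 0))) := by
    intro T hT
    rw [Finset.mem_union, Finset.mem_union, Finset.mem_filter, Finset.mem_filter, Finset.mem_filter]
    by_cases h : T.1.1.2.1 * T.1.1.2.2.2 = 0
    · right
      rcases mul_eq_zero.1 h with h | h
      · exact Or.inr ⟨hT, h⟩
      · exact Or.inl ⟨hT, h⟩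
    · exact Or.inl ⟨hT, h⟩
  have hle : (S.card : ℝ) ≤ ((S.filter (fun T => T.1.1.2.1 * T.1.1.2.2.2 ≠ 0)).card : ℝ) +
      (((S.filter (fun T => T.1.1.2.2.2 = 0)).card : ℝ) +
        ((S.filter (fun T => T.1.1.2.1 = 0)).card : ℝ)) := by
    have h1 := (Finset.card_le_card hsub).trans ((Finset.card_union_le _ _).trans
      (Nat.add_le_add_left (Finset.card_union_le _ _) _))
    exact_mod_cast h1
  have hE2 : E ^ 2 = 82432 ^ 2 * H ^ 2 := by rw [hE]; ring
  have hfin : 2 * (9 * E ^ 2) ≤ 2 * (9 * 82432 ^ 2) * ((H * K) ^ ε * H ^ 2) := by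
    rw [hE2]
    have : H ^ 2 ≤ (H * K) ^ ε * H ^ 2 := le_mul_of_one_le_left (by positivity) hs1
    nlinarith
  calc (S.card : ℝ) ≤ _ := hle
    _ ≤ 2 * (9 * E ^ 2) * (C * (H * K) ^ ε) + (2 * (9 * E ^ 2) + 2 * (9 * E ^ 2)) := by
        gcongr
    _ ≤ 2 * (9 * (82432 ^ 2 * H ^ 2)) * (C * (H * K) ^ ε) +
        (2 * (9 * 82432 ^ 2) * ((H * K) ^ ε * H ^ 2) +
          2 * (9 * 82432 ^ 2) * ((H * K) ^ ε * H ^ 2)) := by
        rw [← hE2]
        gcongr
    _ = _ := by ring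

end MA55
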