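import Pool.Agent.LibMA55.C2

set_option autoImplicit false

open HT55

namespace MA55

theorem unit_of_dvd_one {Q : ℤ} (h : Q ∣ 1) : Q = 1 ∨ Q = -1 :=
  Int.isUnit_iff.1 (isUnit_of_dvd_one h)

/-- forms with `a = 0`, `P ≠ 0` -/
theorem count_a (ε : ℝ) (hε : 0 < ε) : ∃ C : ℝ, 0 ≤ C ∧ ∀ (H K L : ℝ) (S : Finset (Fm × (ℤ × ℤ))),
    1 ≤ H → 1 ≤ K → 0 < L → L ≤ 1 → (∀ T ∈ S, T ∈ GE H K L ∧ T.1.1.1 = 0) →
    (S.card : ℝ) ≤ C * (H * K) ^ ε * H ^ 2 := by
  classical
  obtain ⟨C, hC, hd⟩ := idiv_le ε hε 2 (3 * 82432 ^ 2) (by positivity)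
  refine ⟨2 * (27 * 82432 * 64) * C + 2 * (27 * 82432 * 64), by positivity, ?_⟩
  intro H K L S hH hK hL hL1 hS
  have hH0 : 0 < H := by linarith
  have hK0 : 0 < K := by linarith
  obtain ⟨E, hE⟩ : ∃ E : ℝ, E = 82432 * H := ⟨_, rfl⟩
  have hE1 : 1 ≤ E := by rw [hE]; linarith
  have hE0 : 0 < E := by linarith
  have hL2 : L ^ 2 ≤ 1 := pow_le_one₀ hL.le hL1
  have hs1 : 1 ≤ (H * K) ^ ε := Real.one_le_rpow (by nlinarith) hε.le
  rcases S.eq_empty_or_nonempty with h0 | ⟨T0, hT0⟩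
  · rw [h0, Finset.card_empty]
    push_cast
    positivity
  -- `1 / L ≤ K` and `K ^ 2 ≤ 64 H`
  obtain ⟨hLK, hKH⟩ : 1 ≤ L * K ∧ K ^ 2 ≤ 64 * H := by
    obtain ⟨⟨-, hQ0, -, -, hQ, -, -, -, -, ha⟩, ha0⟩ := hS T0 hT0
    constructor
    · refine le_trans ?_ hQ
      have := Int.one_le_abs hQ0
      exact_mod_cast this
    · by_contra h
      push Not at h
      exact ha h ha0
  have hKL : K / L ≤ 64 * H := by
    rw [div_le_iff₀ hL]
    calc K = K * 1 := by ring
      _ ≤ K * (L * K) := by gcongr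
      _ = K ^ 2 * L := by ring
      _ ≤ 64 * H * L := by gcongr
  have hKL1 : 1 ≤ K / L := by
    rw [le_div_iff₀ hL]
    linarith
  have hdat : ∀ T ∈ S, (T.2.2 = 1 ∨ T.2.2 = -1) ∧ T.1.1.1 = 0 ∧
      |(T.1.1.2.1 : ℝ)| ≤ E ∧ |(T.1.1.2.2.1 : ℝ)| ≤ E ∧ |(T.2.1 : ℝ)| ≤ 4 * K / L ∧
      4 * T.1.1.2.1 * T.1.1.2.2.2 = 3 * T.1.1.2.2.1 ^ 2 ∧
      T.1.2 * T.2.2 ^ 4 = 1 - 4 * T.1.1.2.1 * T.2.1 ^ 3 * T.2.2 -
        6 * T.1.1.2.2.1 * T.2.1 ^ 2 * T.2.2 ^ 2 - 4 * T.1.1.2.2.2 * T.2.1 * T.2.2 ^ 3 ∧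
      invJ T.1 ≠ 0 := by
    rintro ⟨⟨⟨a, b, c, d⟩, e⟩, P, Q⟩ hT
    obtain ⟨⟨⟨f0, f1, f2, f3, f4⟩, hQ0, hc, hP, -, -, fv, hI, hJ, -⟩, ha⟩ := hS _ hT
    rw [← hE] at f0 f1 f2 f3 f4
    simp only [val, invI] at f0 f1 f2 f3 f4 fv hQ0 hc hI hP ha ⊢
    subst ha
    refine ⟨?_, rfl, ?_, f2, ?_, ?_, ?_, hJ⟩
    · apply unit_of_dvd_one
      exact ⟨4 * b * P ^ 3 + 6 * c * P ^ 2 * Q + 4 * d * P * Q ^ 2 + e * Q ^ 3, by
        linear_combination -fv⟩
    · refine f1.trans ?_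
      calc E * L ^ 2 ≤ E * 1 := by gcongr
        _ = E := mul_one E
    · rw [le_div_iff₀ hL]; exact hP
    · linear_combination -hI
    · linear_combination fv
  have cardP : ((bal (4 * K / L)).card : ℝ) ≤ 9 * (64 * H) := by
    have h1 := card_bal (4 * K / L) (by positivity)
    have h2 : 2 * (4 * K / L) = 8 * (K / L) := by ring
    linarith
  have cardE : ((bal E).card : ℝ) ≤ 3 * E := by
    have := card_bal E hE0.le
    linarith
  have cards : ((sg.card : ℕ) : ℝ) ≤ 2 := by exact_mod_cast card_sg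
  have cardI : ((bal E ×ˢ (bal (4 * K / L) ×ˢ sg)).card : ℝ) ≤ 2 * (27 * E * (64 * H)) := by
    rw [Finset.card_product, Finset.card_product]
    push_cast
    calc ((bal E).card : ℝ) * (((bal (4 * K / L)).card : ℝ) * (sg.card : ℝ)) ≤
        (3 * E) * ((9 * (64 * H)) * 2) := by gcongr
      _ = 2 * (27 * E * (64 * H)) := by ring
  -- first part: `c ≠ 0`
  have p1 : ((S.filter (fun T => T.1.1.2.2.1 ≠ 0)).card : ℝ) ≤
      2 * (27 * E * (64 * H)) * (C * (H * K) ^ ε) := by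
    have h1 := card_fib (S.filter (fun T => T.1.1.2.2.1 ≠ 0))
      (bal E ×ˢ (bal (4 * K / L) ×ˢ sg)) (fun T => (T.1.1.2.2.1, T.2.1, T.2.2)) (C * (H * K) ^ ε)
      (by positivity) (by
        intro T hT
        rw [Finset.mem_filter] at hT
        obtain ⟨g2, -, -, g4, g5, -, -, -⟩ := hdat T hT.1
        rw [Finset.mem_product, Finset.mem_product]
        exact ⟨mem_bal _ _ g4, mem_bal _ _ g5, mem_sg g2⟩) (by
        rintro ⟨c, P, Q⟩ _
        rcases ((S.filter (fun T => T.1.1.2.2.1 ≠ 0)).filter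
          (fun T => (T.1.1.2.2.1, T.2.1, T.2.2) = (c, P, Q))).eq_empty_or_nonempty with h0 | ⟨T0, hT0⟩
        · rw [h0, Finset.card_empty]
          push_cast
          positivity
        rw [Finset.mem_filter, Finset.mem_filter] at hT0
        obtain ⟨⟨hT0, hne⟩, heq⟩ := hT0
        obtain ⟨-, -, -, g4, -, -, -, -⟩ := hdat T0 hT0
        simp only [Prod.mk.injEq] at heq
        obtain ⟨e1, e2, e3⟩ := heq
        rw [e1] at hne g4
        have hn0 : 3 * c ^ 2 ≠ 0 := by positivity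
        have hnb : |((3 * c ^ 2 : ℤ) : ℝ)| ≤ 3 * 82432 ^ 2 * (H * K) ^ 2 := by
          push_cast
          rw [abs_mul, abs_pow]
          have k2 : |(c : ℝ)| ^ 2 ≤ E ^ 2 := by gcongr
          have k3 : |(3 : ℝ)| = 3 := by norm_num
          rw [k3]
          have k4 : E ^ 2 ≤ 82432 ^ 2 * (H * K) ^ 2 := by
            rw [hE, mul_pow, mul_pow]
            have : 1 ≤ K ^ 2 := one_le_pow₀ hK
            have : H ^ 2 * 1 ≤ H ^ 2 * K ^ 2 := by gcongr
            nlinarith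
          linarith
        refine le_trans ?_ (hd (H * K) (3 * c ^ 2) (by nlinarith) hn0 hnb)
        norm_cast
        apply Finset.card_le_card_of_injOn (fun T => T.1.1.2.1)
        · intro T hT
          rw [Finset.mem_coe, Finset.mem_filter, Finset.mem_filter] at hT
          obtain ⟨⟨hT, -⟩, heq⟩ := hT
          obtain ⟨-, -, -, -, -, g8, -, -⟩ := hdat T hT
          simp only [Prod.mk.injEq] at heq
          obtain ⟨e1, e2, e3⟩ := heq
          refine mem_idiv hn0 ⟨4 * T.1.1.2.2.2, ?_⟩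
          rw [← e1, ← g8]
          ring
        · rintro ⟨⟨⟨a1, b1, c1, d1⟩, f1⟩, P1, Q1⟩ hT ⟨⟨⟨a2, b2, c2, d2⟩, f2⟩, P2, Q2⟩ hT' hb
          rw [Finset.mem_coe, Finset.mem_filter, Finset.mem_filter] at hT hT'
          obtain ⟨⟨hT, hne1⟩, heq⟩ := hT
          obtain ⟨⟨hT', hne2⟩, heq'⟩ := hT'
          obtain ⟨r1, r2, -, -, -, r6, r7, -⟩ := hdat _ hT
          obtain ⟨s1, s2, -, -, -, s6, s7, -⟩ := hdat _ hT'
          simp only [Prod.mk.injEq] at heq heq' hb r1 r2 r6 r7 s1 s2 s6 s7 hne1 hne2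
          obtain ⟨u1, u2, u3⟩ := heq
          obtain ⟨v1, v2, v3⟩ := heq'
          subst u1 u2 u3 v1 v2 v3 hb r2 s2
          have hb0 : b1 ≠ 0 := by
            rintro rfl
            apply hn0
            linear_combination -r6
          have h5 : b1 * d1 = b1 * d2 := by
            have : 4 * (b1 * d1) = 4 * (b1 * d2) := by linear_combination r6 - s6
            omega
          have h6 := mul_left_cancel₀ hb0 h5
          subst h6
          have h7 : f1 = f2 := by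
            have hQ4 : Q2 ^ 4 = 1 := by
              rcases r1 with h | h
              · rw [h]; norm_num
              · rw [h]; norm_num
            rw [hQ4] at r7 s7
            linear_combination r7 - s7
          rw [h7])
    refine h1.trans ?_
    gcongr
  -- second part: `c = 0`
  have p2 : ((S.filter (fun T => T.1.1.2.2.1 = 0)).card : ℝ) ≤ 2 * (27 * E * (64 * H)) := by
    have h1 := card_fib (S.filter (fun T => T.1.1.2.2.1 = 0))
      (bal E ×ˢ (bal (4 * K / L) ×ˢ sg)) (fun T => (T.1.1.2.1, T.2.1, T.2.2)) 1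
      zero_le_one (by
        intro T hT
        rw [Finset.mem_filter] at hT
        obtain ⟨g2, -, g3, -, g5, -, -, -⟩ := hdat T hT.1
        rw [Finset.mem_product, Finset.mem_product]
        exact ⟨mem_bal _ _ g3, mem_bal _ _ g5, mem_sg g2⟩) (by
        rintro ⟨b, P, Q⟩ _
        have : ((S.filter (fun T => T.1.1.2.2.1 = 0)).filter
          (fun T => (T.1.1.2.1, T.2.1, T.2.2) = (b, P, Q))).card ≤ 1 := by
          rw [Finset.card_le_one]
          rintro ⟨⟨⟨a1, b1, c1, d1⟩, e1⟩, P1, Q1⟩ hT ⟨⟨⟨a2, b2, c2, d2⟩, e2⟩, P2, Q2⟩ hT'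
          rw [Finset.mem_filter, Finset.mem_filter] at hT hT'
          obtain ⟨⟨hT, hne1⟩, heq⟩ := hT
          obtain ⟨⟨hT', hne2⟩, heq'⟩ := hT'
          obtain ⟨r1, r2, -, -, -, r6, r7, r8⟩ := hdat _ hT
          obtain ⟨s1, s2, -, -, -, s6, s7, s8⟩ := hdat _ hT'
          simp only [Prod.mk.injEq] at heq heq' r1 r2 r6 r7 s1 s2 s6 s7 hne1 hne2
          obtain ⟨u1, u2, u3⟩ := heq
          obtain ⟨v1, v2, v3⟩ := heq'
          subst u1 u2 u3 v1 v2 v3 r2 s2 hne1 hne2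
          have hb0 : b2 ≠ 0 := by
            rintro rfl
            apply r8
            unfold invJ
            ring
          have hd1 : d1 = 0 := by
            have : b2 * d1 = 0 := by
              have : 4 * (b2 * d1) = 0 := by linear_combination r6
              omega
            exact (mul_eq_zero.1 this).resolve_left hb0
          have hd2 : d2 = 0 := by
            have : b2 * d2 = 0 := by
              have : 4 * (b2 * d2) = 0 := by linear_combination s6
              omega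
            exact (mul_eq_zero.1 this).resolve_left hb0
          subst hd1 hd2
          have h7 : e1 = e2 := by
            have hQ4 : Q2 ^ 4 = 1 := by
              rcases r1 with h | h
              · rw [h]; norm_num
              · rw [h]; norm_num
            rw [hQ4] at r7 s7
            linear_combination r7 - s7
          rw [h7]
        exact_mod_cast this)
    refine h1.trans ?_
    rw [mul_one]
    exact cardI
  have hsub : S ⊆ (S.filter (fun T => T.1.1.2.2.1 ≠ 0)) ∪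
      (S.filter (fun T => T.1.1.2.2.1 = 0)) := by
    intro T hT
    rw [Finset.mem_union, Finset.mem_filter, Finset.mem_filter]
    by_cases h : T.1.1.2.2.1 = 0
    · exact Or.inr ⟨hT, h⟩
    · exact Or.inl ⟨hT, h⟩
  have hle : (S.card : ℝ) ≤ ((S.filter (fun T => T.1.1.2.2.1 ≠ 0)).card : ℝ) +
      ((S.filter (fun T => T.1.1.2.2.1 = 0)).card : ℝ) := by
    exact_mod_cast (Finset.card_le_card hsub).trans (Finset.card_union_le _ _)
  have hEH : 2 * (27 * E * (64 * H)) = 2 * (27 * 82432 * 64) * H ^ 2 := by rw [hE]; ring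
  rw [hEH] at p1 p2
  have h9 : H ^ 2 ≤ (H * K) ^ ε * H ^ 2 := le_mul_of_one_le_left (by positivity) hs1
  calc (S.card : ℝ) ≤ _ := hle
    _ ≤ 2 * (27 * 82432 * 64) * H ^ 2 * (C * (H * K) ^ ε) + 2 * (27 * 82432 * 64) * H ^ 2 :=
        add_le_add p1 p2
    _ ≤ 2 * (27 * 82432 * 64) * H ^ 2 * (C * (H * K) ^ ε) +
        2 * (27 * 82432 * 64) * ((H * K) ^ ε * H ^ 2) := by linarith
    _ = _ := by ring

end MA55
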