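import Pool.Agent.LibMA55.C3

set_option autoImplicit false

open HT55

namespace MA55

private theorem sqrt_case {w a : ℤ} (h : 3 * w ^ 2 = -a) (c : ℤ) :
    ∃ σ ∈ sg, c = (c + w) + σ * Int.sqrt (-a / 3) := by
  have h1 : -a / 3 = w * w := by
    rw [← h]
    have : 3 * w ^ 2 = 3 * (w * w) := by ring
    rw [this]
    exact Int.mul_ediv_cancel_left _ (by norm_num)
  rw [h1, Int.sqrt_eq]
  rcases le_total 0 w with hw | hw
  · refine ⟨-1, mem_sg (Or.inr rfl), ?_⟩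
    have : (w.natAbs : ℤ) = w := Int.natAbs_of_nonneg hw
    rw [this]
    ring
  · refine ⟨1, mem_sg (Or.inl rfl), ?_⟩
    have : (w.natAbs : ℤ) = -w := Int.ofNat_natAbs_of_nonpos hw
    rw [this]
    ring

/-- forms with `a P + b Q = 0` -/
theorem count_u (ε : ℝ) (hε : 0 < ε) : ∃ C : ℝ, 0 ≤ C ∧ ∀ (H K L : ℝ) (S : Finset (Fm × (ℤ × ℤ))),
    1 ≤ H → 1 ≤ K → 0 < L → L ≤ 1 → (∀ T ∈ S, T ∈ GE H K L ∧ T.2.1 ≠ 0 ∧ T.1.1.1 ≠ 0 ∧
      T.1.1.1 * T.2.1 + T.1.1.2.1 * T.2.2 = 0) →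
    (S.card : ℝ) ≤ C * (H * K) ^ ε * H ^ 2 := by
  classical
  obtain ⟨C, hC, hpp⟩ := prod_pairs ε hε
  obtain ⟨k, hk⟩ : ∃ k : ℝ, k = (82432 : ℝ) ^ ε := ⟨_, rfl⟩
  have hk0 : 0 ≤ k := by rw [hk]; positivity
  obtain ⟨c0, hc0⟩ : ∃ c0 : ℝ, c0 = 4260880 * 12 := ⟨_, rfl⟩
  have hc00 : 0 ≤ c0 := by rw [hc0]; norm_num
  refine ⟨4 * C * k * ((2 * c0 + 1) * 82432 ^ 2), by positivity, ?_⟩
  intro H K L S hH hK hL hL1 hS
  have hH0 : 0 < H := by linarith
  have hK0 : 0 < K := by linarith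
  obtain ⟨E, hE⟩ : ∃ E : ℝ, E = 82432 * H := ⟨_, rfl⟩
  have hE1 : 1 ≤ E := by rw [hE]; linarith
  have hE0 : 0 < E := by linarith
  have hL2 : L ^ 2 ≤ 1 := pow_le_one₀ hL.le hL1
  rcases S.eq_empty_or_nonempty with h0 | ⟨T0, hT0⟩
  · rw [h0, Finset.card_empty]
    push_cast
    positivity
  have hLK : 1 ≤ L * K := by
    obtain ⟨⟨-, hQ0, -, -, hQ, -, -, -, -, ha⟩, -⟩ := hS T0 hT0
    refine le_trans ?_ hQ
    have := Int.one_le_abs hQ0
    exact_mod_cast this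
  have hdat : ∀ T ∈ S, (T.2.2 = 1 ∨ T.2.2 = -1) ∧ T.1.1.1 * T.2.1 ≠ 0 ∧
      |((T.1.1.1 * T.2.1 : ℤ) : ℝ)| ≤ E * L ^ 2 ∧
      3 * (T.1.1.1 * T.2.1 ^ 2 - T.1.1.2.2.1) ^ 2 = -T.1.1.1 ∧
      T.1.1.2.1 = -(T.1.1.1 * T.2.1 * T.2.2) := by
    rintro ⟨⟨⟨a, b, c, d⟩, e⟩, P, Q⟩ hT
    obtain ⟨⟨⟨f0, f1, f2, f3, f4⟩, hQ0, hc, hP, -, -, fv, hI, hJ, -⟩, hP0, ha, hu⟩ := hS _ hT
    rw [← hE] at f0 f1 f2 f3 f4
    simp only [val, invI] at f0 f1 f2 f3 f4 fv hQ0 hc hI hP ha hP0 hu ⊢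
    have hQa : Q ∣ a := by
      have h1 : Q ∣ P * a := ⟨-b, by linear_combination hu⟩
      exact hc.symm.dvd_of_dvd_mul_left h1
    have hQ : Q = 1 ∨ Q = -1 := by
      apply unit_of_dvd_one
      obtain ⟨a', rfl⟩ := hQa
      exact ⟨a' * P ^ 4 + 4 * b * P ^ 3 + 6 * c * P ^ 2 * Q + 4 * d * P * Q ^ 2 + e * Q ^ 3, by
        linear_combination -fv⟩
    have hQ2 : Q ^ 2 = 1 := by
      rcases hQ with h | h
      · rw [h]; norm_num
      · rw [h]; norm_num
    have hQ4 : Q ^ 4 = 1 := by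
      have : Q ^ 4 = (Q ^ 2) ^ 2 := by ring
      rw [this, hQ2]
      norm_num
    have hb : b = -(a * P * Q) := by
      have h1 : b * Q ^ 2 = -(a * P * Q) := by linear_combination Q * hu
      rw [hQ2, mul_one] at h1
      exact h1
    refine ⟨hQ, mul_ne_zero ha hP0, ?_, ?_, hb⟩
    · have h1 : |((a * P : ℤ) : ℝ)| = |(b : ℝ)| := by
        rw [hb]
        push_cast
        rw [abs_neg, abs_mul ((a : ℝ) * P) Q]
        have h2 : |(Q : ℝ)| = 1 := by
          rcases hQ with h | h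
          · rw [h]; norm_num
          · rw [h]; norm_num
        rw [h2, mul_one]
      rw [h1]
      exact f1
    · have h1 : a = a ^ 2 * P ^ 4 + 4 * a * b * P ^ 3 * Q + 6 * a * c * P ^ 2 * Q ^ 2 +
          4 * a * d * P * Q ^ 3 + a * e * Q ^ 4 := by linear_combination -a * fv
      have h2 : a * e = 4 * b * d - 3 * c ^ 2 := by linear_combination hI
      have h3 : 4 * a * b * P ^ 3 * Q = -(4 * a ^ 2 * P ^ 4) := by
        linear_combination (4 * a * P ^ 3) * hu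
      have h4 : 4 * a * d * P * Q ^ 3 + 4 * b * d * Q ^ 4 = 0 := by
        linear_combination (4 * d * Q ^ 3) * hu
      rw [h2, h3] at h1
      have h5 : a = -(3 * a ^ 2 * P ^ 4) + 6 * a * c * P ^ 2 * Q ^ 2 - 3 * c ^ 2 * Q ^ 4 := by
        linear_combination h1 + h4
      rw [hQ2, hQ4] at h5
      linear_combination h5
  obtain ⟨M, hM⟩ : ∃ M : ℝ, M = E * L ^ 2 := ⟨_, rfl⟩
  obtain ⟨S1, hS1⟩ : ∃ S1 : Finset (ℤ × ℤ), S1 = S.image (fun T => (T.1.1.1, T.2.1)) := ⟨_, rfl⟩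
  have hM1 : 1 ≤ M := by
    obtain ⟨-, g2, g3, -⟩ := hdat T0 hT0
    rw [← hM] at g3
    refine le_trans ?_ g3
    have := Int.one_le_abs g2
    exact_mod_cast this
  have hS1c : (S1.card : ℝ) ≤ C * (M * M ^ ε) := by
    apply hpp M S1 hM1
    intro p hp
    rw [hS1, Finset.mem_image] at hp
    obtain ⟨T, hT, rfl⟩ := hp
    obtain ⟨-, g2, g3, -⟩ := hdat T hT
    rw [hM]
    exact ⟨g2, g3⟩
  obtain ⟨ρ, hρ⟩ : ∃ ρ : ℝ, ρ = 4260880 * (12 * (82432 * H)) / K := ⟨_, rfl⟩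
  have hρ0 : 0 ≤ ρ := by rw [hρ]; positivity
  set I : Finset ((ℤ × ℤ) × (ℤ × ℤ)) := (S1 ×ˢ (sg ×ˢ sg)).image
    (fun t => (t.1, (t.2.1, t.1.1 * t.1.2 ^ 2 + t.2.2 * Int.sqrt (-t.1.1 / 3)))) with hI
  have hIc : (I.card : ℝ) ≤ 4 * (C * (M * M ^ ε)) := by
    have h1 : I.card ≤ S1.card * (sg.card * sg.card) := by
      rw [hI, ← Finset.card_product, ← Finset.card_product]
      exact Finset.card_image_le
    have h2 : sg.card * sg.card ≤ 4 := by
      have := card_sg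
      nlinarith
    have h3 : I.card ≤ S1.card * 4 := h1.trans (Nat.mul_le_mul_left _ h2)
    have h4 : (I.card : ℝ) ≤ (S1.card : ℝ) * 4 := by exact_mod_cast h3
    linarith
  have hmain := card_fib S I (fun T => ((T.1.1.1, T.2.1), (T.2.2, T.1.1.2.2.1)))
    (2 * (ρ / L ^ 3) + 1) (by positivity) (by
      intro T hT
      obtain ⟨g1, -, -, g4, -⟩ := hdat T hT
      obtain ⟨σ, hσ, hσc⟩ := sqrt_case g4 T.1.1.2.2.1
      rw [hI, Finset.mem_image]
      refine ⟨((T.1.1.1, T.2.1), (T.2.2, σ)), ?_, ?_⟩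
      · rw [Finset.mem_product, Finset.mem_product]
        refine ⟨?_, mem_sg g1, hσ⟩
        rw [hS1]
        exact Finset.mem_image_of_mem _ hT
      · simp only [Prod.mk.injEq, true_and]
        linear_combination -hσc) (by
      rintro ⟨⟨a, P⟩, ⟨Q, c⟩⟩ _
      rcases (S.filter (fun T => ((T.1.1.1, T.2.1), (T.2.2, T.1.1.2.2.1)) =
        ((a, P), (Q, c)))).eq_empty_or_nonempty with h0 | ⟨⟨⟨⟨a1, b1, c1, d1⟩, e1⟩, P1, Q1⟩, hT1⟩
      · rw [h0, Finset.card_empty]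
        push_cast
        positivity
      rw [Finset.mem_filter] at hT1
      obtain ⟨hT1, heq1⟩ := hT1
      simp only [Prod.mk.injEq] at heq1
      obtain ⟨⟨u1, u2⟩, u3, u4⟩ := heq1
      subst u1 u2 u3 u4
      obtain ⟨-, -, -, -, w5⟩ := hdat _ hT1
      have hP0 : P1 ≠ 0 := (hS _ hT1).2.1
      have hGE := (hS _ hT1).1
      refine le_trans ?_ (card_bal (ρ / L ^ 3) (by positivity))
      norm_cast
      apply Finset.card_le_card_of_injOn (fun T => (e1 - T.1.2) / P1)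
      · rintro ⟨⟨⟨a2, b2, c2, d2⟩, e2⟩, P2, Q2⟩ hT2
        rw [Finset.mem_coe, Finset.mem_filter] at hT2
        obtain ⟨hT2, heq2⟩ := hT2
        simp only [Prod.mk.injEq] at heq2
        obtain ⟨⟨u1, u2⟩, u3, u4⟩ := heq2
        subst u1 u2 u3 u4
        obtain ⟨h0, h1, h2, h3, -, -, -, -, e5, -, -, -, e9⟩ := diff hH hK hL (hS _ hT2).1 hGE
        have h4 : (e1 - e2) / P2 = h3 := by
          have : e1 - e2 = P2 * h3 := by linear_combination -e5
          rw [this]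
          exact Int.mul_ediv_cancel_left _ hP0
        simp only
        rw [h4]
        apply mem_bal
        rw [hρ]
        exact e9
      · rintro ⟨⟨⟨a2, b2, c2, d2⟩, e2⟩, P2, Q2⟩ hT2 ⟨⟨⟨a3, b3, c3, d3⟩, e3⟩, P3, Q3⟩ hT3 h
        rw [Finset.mem_coe, Finset.mem_filter] at hT2 hT3
        obtain ⟨hT2, heq2⟩ := hT2
        obtain ⟨hT3, heq3⟩ := hT3
        simp only [Prod.mk.injEq] at heq2 heq3 h
        obtain ⟨⟨u1, u2⟩, u3, u4⟩ := heq2
        subst u1 u2 u3 u4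
        obtain ⟨⟨u1, u2⟩, u3, u4⟩ := heq3
        subst u1 u2 u3 u4
        obtain ⟨-, -, -, -, w2⟩ := hdat _ hT2
        obtain ⟨-, -, -, -, w3⟩ := hdat _ hT3
        obtain ⟨h0, h1, h2, h3, -, -, -, e4, e5, -, -, -, -⟩ := diff hH hK hL (hS _ hT2).1 hGE
        obtain ⟨k0, k1, k2, k3, i1, i2, i3, i4, i5, -, -, -, -⟩ :=
          diff hH hK hL (hS _ hT2).1 (hS _ hT3).1
        obtain ⟨l0, l1, l2, l3, -, -, -, -, j5, -, -, -, -⟩ := diff hH hK hL (hS _ hT3).1 hGE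
        have hP3 : P3 ≠ 0 := hP0
        have hQ3 : Q3 ≠ 0 := (hS _ hT3).1.2.1
        simp only at w2 w3
        have hb : b2 = b3 := by rw [w2, w3]
        have q1 : (e1 - e2) / P3 = h3 := by
          have : e1 - e2 = P3 * h3 := by linear_combination -e5
          rw [this]
          exact Int.mul_ediv_cancel_left _ hP0
        have q2 : (e1 - e3) / P3 = l3 := by
          have : e1 - e3 = P3 * l3 := by linear_combination -j5
          rw [this]
          exact Int.mul_ediv_cancel_left _ hP0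
        have hh : h3 = l3 := by rw [← q1, ← q2, h]
        have he : e2 = e3 := by
          rw [hh] at e5
          linear_combination e5 - j5
        have hk0 : k0 = 0 := by
          have : Q3 * k0 = 0 := by linear_combination -i1
          exact (mul_eq_zero.1 this).resolve_left hQ3
        have hk1 : k1 = 0 := by
          have : Q3 * k1 = 0 := by
            rw [hb, hk0] at i2
            linear_combination -i2
          exact (mul_eq_zero.1 this).resolve_left hQ3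
        have hk2 : k2 = 0 := by
          have : Q3 * k2 = 0 := by
            rw [hk1] at i3
            linear_combination -i3
          exact (mul_eq_zero.1 this).resolve_left hQ3
        have hk3 : k3 = 0 := by
          have : P3 * k3 = 0 := by
            rw [he] at i5
            linear_combination i5
          exact (mul_eq_zero.1 this).resolve_left hP3
        have hd : d2 = d3 := by
          rw [hk2, hk3] at i4
          omega
        rw [hb, he, hd])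
  -- the estimate
  have hMe : M ^ ε ≤ k * (H * K) ^ ε := by
    rw [hk, ← Real.mul_rpow (by norm_num) (by positivity)]
    apply Real.rpow_le_rpow (by linarith) _ hε.le
    rw [hM, hE]
    calc 82432 * H * L ^ 2 ≤ 82432 * H * 1 := by gcongr
      _ ≤ 82432 * H * K := by gcongr
      _ = 82432 * (H * K) := by ring
  have hMρ : M * (2 * (ρ / L ^ 3) + 1) ≤ (2 * c0 + 1) * 82432 ^ 2 * H ^ 2 := by
    have h1 : M * (ρ / L ^ 3) = c0 * E ^ 2 / (L * K) := by
      rw [hM, hρ, hc0, ← hE]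
      field_simp
    have h2 : c0 * E ^ 2 / (L * K) ≤ c0 * E ^ 2 := div_le_self (by positivity) hLK
    have h3 : M ≤ E ^ 2 := by
      rw [hM]
      calc E * L ^ 2 ≤ E * 1 := by gcongr
        _ ≤ E * E := by gcongr
        _ = E ^ 2 := by ring
    calc M * (2 * (ρ / L ^ 3) + 1) = 2 * (M * (ρ / L ^ 3)) + M := by ring
      _ ≤ 2 * (c0 * E ^ 2) + E ^ 2 := by
          rw [h1]
          gcongr
      _ = (2 * c0 + 1) * 82432 ^ 2 * H ^ 2 := by rw [hE]; ring
  calc (S.card : ℝ) ≤ I.card * (2 * (ρ / L ^ 3) + 1) := hmain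
    _ ≤ (4 * (C * (M * M ^ ε))) * (2 * (ρ / L ^ 3) + 1) := by gcongr
    _ = 4 * C * M ^ ε * (M * (2 * (ρ / L ^ 3) + 1)) := by ring
    _ ≤ 4 * C * (k * (H * K) ^ ε) * ((2 * c0 + 1) * 82432 ^ 2 * H ^ 2) := by gcongr
    _ = _ := by ring

/-- forms with `e Q + d P = 0` -/
theorem count_w (ε : ℝ) (hε : 0 < ε) : ∃ C : ℝ, 0 ≤ C ∧ ∀ (H K L : ℝ) (S : Finset (Fm × (ℤ × ℤ))),
    1 ≤ H → 1 ≤ K → 0 < L → L ≤ 1 → (∀ T ∈ S, T ∈ GE H K L ∧ T.2.1 ≠ 0 ∧ T.1.1.1 ≠ 0 ∧
      T.1.2 * T.2.2 + T.1.1.2.2.2 * T.2.1 = 0) →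
    (S.card : ℝ) ≤ C * (H * K) ^ ε * H ^ 2 := by
  classical
  obtain ⟨C, hC, hpp⟩ := prod_pairs (ε / 2) (by positivity)
  obtain ⟨k, hk⟩ : ∃ k : ℝ, k = (82432 : ℝ) ^ ε := ⟨_, rfl⟩
  have hk0 : 0 ≤ k := by rw [hk]; positivity
  obtain ⟨c0, hc0⟩ : ∃ c0 : ℝ, c0 = 4260880 * 12 := ⟨_, rfl⟩
  have hc00 : 0 ≤ c0 := by rw [hc0]; norm_num
  refine ⟨4 * C * k * ((2 * c0 + 1) * 82432 ^ 2), by positivity, ?_⟩
  intro H K L S hH hK hL hL1 hS
  have hH0 : 0 < H := by linarith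
  have hK0 : 0 < K := by linarith
  obtain ⟨E, hE⟩ : ∃ E : ℝ, E = 82432 * H := ⟨_, rfl⟩
  have hE1 : 1 ≤ E := by rw [hE]; linarith
  have hE0 : 0 < E := by linarith
  have hL2 : L ^ 2 ≤ 1 := pow_le_one₀ hL.le hL1
  rcases S.eq_empty_or_nonempty with h0 | ⟨T0, hT0⟩
  · rw [h0, Finset.card_empty]
    push_cast
    positivity
  have hEL : 1 ≤ E * L ^ 4 := by
    obtain ⟨⟨⟨f0, -⟩, -⟩, -, ha, -⟩ := hS T0 hT0
    rw [← hE] at f0
    refine le_trans ?_ f0
    have := Int.one_le_abs ha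
    exact_mod_cast this
  have hdat : ∀ T ∈ S, (T.2.1 = 1 ∨ T.2.1 = -1) ∧ T.1.2 * T.2.2 ≠ 0 ∧
      |((T.1.2 * T.2.2 : ℤ) : ℝ)| ≤ E / L ^ 2 ∧
      3 * (T.1.2 * T.2.2 ^ 2 - T.1.1.2.2.1) ^ 2 = -T.1.2 ∧
      T.1.1.2.2.2 = -(T.1.2 * T.2.2 * T.2.1) := by
    rintro ⟨⟨⟨a, b, c, d⟩, e⟩, P, Q⟩ hT
    obtain ⟨⟨⟨f0, f1, f2, f3, f4⟩, hQ0, hc, hP, -, -, fv, hI, hJ, -⟩, hP0, ha, hu⟩ := hS _ hT
    rw [← hE] at f0 f1 f2 f3 f4
    simp only [val, invI] at f0 f1 f2 f3 f4 fv hQ0 hc hI hP ha hP0 hu ⊢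
    have hPe : P ∣ e := by
      have h1 : P ∣ Q * e := ⟨-d, by linear_combination hu⟩
      exact hc.dvd_of_dvd_mul_left h1
    have hP1 : P = 1 ∨ P = -1 := by
      apply unit_of_dvd_one
      obtain ⟨e', rfl⟩ := hPe
      exact ⟨a * P ^ 3 + 4 * b * P ^ 2 * Q + 6 * c * P * Q ^ 2 + 4 * d * Q ^ 3 + e' * Q ^ 4, by
        linear_combination -fv⟩
    have hP2 : P ^ 2 = 1 := by
      rcases hP1 with h | h
      · rw [h]; norm_num
      · rw [h]; norm_num
    have hP4 : P ^ 4 = 1 := by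
      have : P ^ 4 = (P ^ 2) ^ 2 := by ring
      rw [this, hP2]
      norm_num
    have hd : d = -(e * Q * P) := by
      have h1 : d * P ^ 2 = -(e * Q * P) := by linear_combination P * hu
      rw [hP2, mul_one] at h1
      exact h1
    have he0 : e ≠ 0 := by
      intro he
      have hd0 : d = 0 := by rw [hd, he]; ring
      have hc0 : c = 0 := by
        have : c ^ 2 = 0 := by
          have : 3 * c ^ 2 = 0 := by
            rw [he, hd0] at hI
            linear_combination hI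
          omega
        exact pow_eq_zero_iff (two_ne_zero) |>.1 this
      apply hJ
      unfold invJ
      simp only
      rw [he, hd0, hc0]
      ring
    refine ⟨hP1, mul_ne_zero he0 hQ0, ?_, ?_, hd⟩
    · have h1 : |((e * Q : ℤ) : ℝ)| = |(d : ℝ)| := by
        rw [hd]
        push_cast
        rw [abs_neg, abs_mul ((e : ℝ) * Q) P]
        have h2 : |(P : ℝ)| = 1 := by
          rcases hP1 with h | h
          · rw [h]; norm_num
          · rw [h]; norm_num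
        rw [h2, mul_one]
      rw [h1, le_div_iff₀ (by positivity)]
      exact f3
    · have h1 : e = e * a * P ^ 4 + 4 * e * b * P ^ 3 * Q + 6 * e * c * P ^ 2 * Q ^ 2 +
          4 * e * d * P * Q ^ 3 + e ^ 2 * Q ^ 4 := by linear_combination -e * fv
      have h2 : e * a = 4 * b * d - 3 * c ^ 2 := by linear_combination hI
      have h3 : 4 * e * d * P * Q ^ 3 = -(4 * e ^ 2 * Q ^ 4) := by
        linear_combination (4 * e * Q ^ 3) * hu
      have h4 : 4 * e * b * P ^ 3 * Q + 4 * b * d * P ^ 4 = 0 := by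
        linear_combination (4 * b * P ^ 3) * hu
      rw [h2, h3] at h1
      have h5 : e = -(3 * e ^ 2 * Q ^ 4) + 6 * e * c * P ^ 2 * Q ^ 2 - 3 * c ^ 2 * P ^ 4 := by
        linear_combination h1 + h4
      rw [hP2, hP4] at h5
      linear_combination h5
  obtain ⟨M, hM⟩ : ∃ M : ℝ, M = E / L ^ 2 := ⟨_, rfl⟩
  obtain ⟨S1, hS1⟩ : ∃ S1 : Finset (ℤ × ℤ), S1 = S.image (fun T => (T.1.2, T.2.2)) := ⟨_, rfl⟩
  have hM1 : 1 ≤ M := by
    rw [hM, le_div_iff₀ (by positivity)]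
    linarith
  have hS1c : (S1.card : ℝ) ≤ C * (M * M ^ (ε / 2)) := by
    apply hpp M S1 hM1
    intro p hp
    rw [hS1, Finset.mem_image] at hp
    obtain ⟨T, hT, rfl⟩ := hp
    obtain ⟨-, g2, g3, -⟩ := hdat T hT
    rw [hM]
    exact ⟨g2, g3⟩
  obtain ⟨ρ, hρ⟩ : ∃ ρ : ℝ, ρ = 4260880 * (12 * (82432 * H)) / K := ⟨_, rfl⟩
  have hρ0 : 0 ≤ ρ := by rw [hρ]; positivity
  set I : Finset ((ℤ × ℤ) × (ℤ × ℤ)) := (S1 ×ˢ (sg ×ˢ sg)).image
    (fun t => (t.1, (t.2.1, t.1.1 * t.1.2 ^ 2 + t.2.2 * Int.sqrt (-t.1.1 / 3)))) with hI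
  have hIc : (I.card : ℝ) ≤ 4 * (C * (M * M ^ (ε / 2))) := by
    have h1 : I.card ≤ S1.card * (sg.card * sg.card) := by
      rw [hI, ← Finset.card_product, ← Finset.card_product]
      exact Finset.card_image_le
    have h2 : sg.card * sg.card ≤ 4 := by
      have := card_sg
      nlinarith
    have h3 : I.card ≤ S1.card * 4 := h1.trans (Nat.mul_le_mul_left _ h2)
    have h4 : (I.card : ℝ) ≤ (S1.card : ℝ) * 4 := by exact_mod_cast h3
    linarith
  have hmain := card_fib S I (fun T => ((T.1.2, T.2.2), (T.2.1, T.1.1.2.2.1)))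
    (2 * (ρ * L ^ 3) + 1) (by positivity) (by
      intro T hT
      obtain ⟨g1, -, -, g4, -⟩ := hdat T hT
      obtain ⟨σ, hσ, hσc⟩ := sqrt_case g4 T.1.1.2.2.1
      rw [hI, Finset.mem_image]
      refine ⟨((T.1.2, T.2.2), (T.2.1, σ)), ?_, ?_⟩
      · rw [Finset.mem_product, Finset.mem_product]
        refine ⟨?_, mem_sg g1, hσ⟩
        rw [hS1]
        exact Finset.mem_image_of_mem _ hT
      · simp only [Prod.mk.injEq, true_and]
        linear_combination -hσc) (by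
      rintro ⟨⟨e, Q⟩, ⟨P, c⟩⟩ _
      rcases (S.filter (fun T => ((T.1.2, T.2.2), (T.2.1, T.1.1.2.2.1)) =
        ((e, Q), (P, c)))).eq_empty_or_nonempty with h0 | ⟨⟨⟨⟨a1, b1, c1, d1⟩, e1⟩, P1, Q1⟩, hT1⟩
      · rw [h0, Finset.card_empty]
        push_cast
        positivity
      rw [Finset.mem_filter] at hT1
      obtain ⟨hT1, heq1⟩ := hT1
      simp only [Prod.mk.injEq] at heq1
      obtain ⟨⟨u1, u2⟩, u3, u4⟩ := heq1
      subst u1 u2 u3 u4
      have hQ0 : Q1 ≠ 0 := (hS _ hT1).1.2.1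
      have hGE := (hS _ hT1).1
      refine le_trans ?_ (card_bal (ρ * L ^ 3) (by positivity))
      norm_cast
      apply Finset.card_le_card_of_injOn (fun T => (T.1.1.1 - a1) / Q1)
      · rintro ⟨⟨⟨a2, b2, c2, d2⟩, e2⟩, P2, Q2⟩ hT2
        rw [Finset.mem_coe, Finset.mem_filter] at hT2
        obtain ⟨hT2, heq2⟩ := hT2
        simp only [Prod.mk.injEq] at heq2
        obtain ⟨⟨u1, u2⟩, u3, u4⟩ := heq2
        subst u1 u2 u3 u4
        obtain ⟨h0, h1, h2, h3, e1', -, -, -, -, e6, -, -, -⟩ := diff hH hK hL (hS _ hT2).1 hGE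
        have h4 : (a2 - a1) / Q2 = h0 := by
          rw [e1']
          exact Int.mul_ediv_cancel_left _ hQ0
        simp only
        rw [h4]
        apply mem_bal
        rw [hρ]
        exact e6
      · rintro ⟨⟨⟨a2, b2, c2, d2⟩, e2⟩, P2, Q2⟩ hT2 ⟨⟨⟨a3, b3, c3, d3⟩, e3⟩, P3, Q3⟩ hT3 h
        rw [Finset.mem_coe, Finset.mem_filter] at hT2 hT3
        obtain ⟨hT2, heq2⟩ := hT2
        obtain ⟨hT3, heq3⟩ := hT3
        simp only [Prod.mk.injEq] at heq2 heq3 h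
        obtain ⟨⟨u1, u2⟩, u3, u4⟩ := heq2
        subst u1 u2 u3 u4
        obtain ⟨⟨u1, u2⟩, u3, u4⟩ := heq3
        subst u1 u2 u3 u4
        obtain ⟨-, -, -, -, w2⟩ := hdat _ hT2
        obtain ⟨-, -, -, -, w3⟩ := hdat _ hT3
        obtain ⟨h0, h1, h2, h3, e1', -, -, -, -, -, -, -, -⟩ := diff hH hK hL (hS _ hT2).1 hGE
        obtain ⟨k0, k1, k2, k3, i1, i2, i3, i4, i5, -, -, -, -⟩ :=
          diff hH hK hL (hS _ hT2).1 (hS _ hT3).1
        obtain ⟨l0, l1, l2, l3, j1, -, -, -, -, -, -, -, -⟩ := diff hH hK hL (hS _ hT3).1 hGE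
        have hP3 : P3 ≠ 0 := (hS _ hT3).2.1
        have hQ3 : Q3 ≠ 0 := hQ0
        simp only at w2 w3
        have hd : d2 = d3 := by rw [w2, w3]
        have q1 : (a2 - a1) / Q3 = h0 := by
          rw [e1']
          exact Int.mul_ediv_cancel_left _ hQ0
        have q2 : (a3 - a1) / Q3 = l0 := by
          rw [j1]
          exact Int.mul_ediv_cancel_left _ hQ0
        have hh : h0 = l0 := by rw [← q1, ← q2, h]
        have ha : a2 = a3 := by
          rw [hh] at e1'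
          linear_combination e1' - j1
        have hk3 : k3 = 0 := by
          have : P3 * k3 = 0 := by linear_combination i5
          exact (mul_eq_zero.1 this).resolve_left hP3
        have hk2 : k2 = 0 := by
          have : P3 * k2 = 0 := by
            rw [hd, hk3] at i4
            linear_combination i4
          exact (mul_eq_zero.1 this).resolve_left hP3
        have hk1 : k1 = 0 := by
          have : P3 * k1 = 0 := by
            rw [hk2] at i3
            linear_combination i3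
          exact (mul_eq_zero.1 this).resolve_left hP3
        have hk0 : k0 = 0 := by
          have : Q3 * k0 = 0 := by
            rw [ha] at i1
            linear_combination -i1
          exact (mul_eq_zero.1 this).resolve_left hQ3
        have hb : b2 = b3 := by
          rw [hk0, hk1] at i2
          omega
        rw [hb, ha, hd])
  -- the estimate
  obtain ⟨s, hs⟩ : ∃ s, s = √E := ⟨_, rfl⟩
  have hs2 : s ^ 2 = E := by rw [hs]; exact Real.sq_sqrt hE0.le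
  have hs1 : 1 ≤ s := by rw [hs]; exact Real.one_le_sqrt.2 hE1
  have hLs : 1 / L ^ 2 ≤ s := by
    have h1 : (1 / L ^ 2) ^ 2 ≤ s ^ 2 := by
      rw [hs2, div_pow, one_pow, div_le_iff₀ (by positivity)]
      calc 1 ≤ E * L ^ 4 := hEL
        _ = E * (L ^ 2) ^ 2 := by ring
    exact le_of_pow_le_pow_left₀ (by norm_num) (by linarith) h1
  have hME : M ≤ E ^ 2 := by
    rw [hM]
    calc E / L ^ 2 = E * (1 / L ^ 2) := by ring
      _ ≤ E * s := by gcongr
      _ ≤ E * E := by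
          gcongr
          rw [← hs2]
          nlinarith
      _ = E ^ 2 := by ring
  have hMe : M ^ (ε / 2) ≤ k * (H * K) ^ ε := by
    rw [hk, ← Real.mul_rpow (by norm_num) (by positivity)]
    calc M ^ (ε / 2) ≤ (E ^ 2) ^ (ε / 2) := Real.rpow_le_rpow (by linarith) hME (by positivity)
      _ = E ^ ε := by
          rw [← Real.rpow_natCast, ← Real.rpow_mul hE0.le]
          congr 1
          push_cast
          ring
      _ ≤ (82432 * (H * K)) ^ ε := by
          apply Real.rpow_le_rpow hE0.le _ hε.le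
          rw [hE]
          calc 82432 * H = 82432 * (H * 1) := by ring
            _ ≤ 82432 * (H * K) := by gcongr
  have hMρ : M * (2 * (ρ * L ^ 3) + 1) ≤ (2 * c0 + 1) * 82432 ^ 2 * H ^ 2 := by
    have h1 : M * (ρ * L ^ 3) = c0 * E ^ 2 * (L / K) := by
      rw [hM, hρ, hc0, ← hE]
      field_simp
    have h2 : c0 * E ^ 2 * (L / K) ≤ c0 * E ^ 2 * 1 := by
      have : L / K ≤ 1 := by
        rw [div_le_one hK0]
        linarith
      gcongr
    calc M * (2 * (ρ * L ^ 3) + 1) = 2 * (M * (ρ * L ^ 3)) + M := by ring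
      _ ≤ 2 * (c0 * E ^ 2 * 1) + E ^ 2 := by
          rw [h1]
          gcongr
      _ = (2 * c0 + 1) * 82432 ^ 2 * H ^ 2 := by rw [hE]; ring
  calc (S.card : ℝ) ≤ I.card * (2 * (ρ * L ^ 3) + 1) := hmain
    _ ≤ (4 * (C * (M * M ^ (ε / 2)))) * (2 * (ρ * L ^ 3) + 1) := by gcongr
    _ = 4 * C * M ^ (ε / 2) * (M * (2 * (ρ * L ^ 3) + 1)) := by ring
    _ ≤ 4 * C * (k * (H * K) ^ ε) * ((2 * c0 + 1) * 82432 ^ 2 * H ^ 2) := by gcongr
    _ = _ := by ring

end MA55
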