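import Pool.Agent.LibMA55.C4
import Pool.Agent.LibHT55.R6

set_option autoImplicit false

open HT55

namespace MA55

private theorem uw_bound (E K L a b d e P Q : ℝ) (hE : 0 ≤ E) (hK : 0 < K) (hL : 0 < L)
    (ha : |a| ≤ E * L ^ 4) (hb : |b| ≤ E * L ^ 2) (hd : |d| * L ^ 2 ≤ E) (he : |e| * L ^ 4 ≤ E)
    (hP : |P| * L ≤ 4 * K) (hQ : |Q| ≤ L * K) :
    |16 * ((a * P + b * Q) * (e * Q + d * P))| ≤ 400 * E ^ 2 * K ^ 2 := by
  have h1 : |a * P + b * Q| ≤ 5 * E * K * L ^ 3 := by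
    calc |a * P + b * Q| ≤ |a| * |P| + |b| * |Q| := by
          refine (abs_add_le _ _).trans ?_
          rw [abs_mul, abs_mul]
      _ ≤ (E * L ^ 4) * |P| + (E * L ^ 2) * (L * K) := by gcongr
      _ = E * L ^ 3 * (|P| * L) + E * K * L ^ 3 := by ring
      _ ≤ E * L ^ 3 * (4 * K) + E * K * L ^ 3 := by gcongr
      _ = 5 * E * K * L ^ 3 := by ring
  have h2 : |e * Q + d * P| * L ^ 3 ≤ 5 * E * K := by
    calc |e * Q + d * P| * L ^ 3 ≤ (|e| * |Q| + |d| * |P|) * L ^ 3 := by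
          gcongr
          refine (abs_add_le _ _).trans ?_
          rw [abs_mul, abs_mul]
      _ ≤ (|e| * (L * K) + |d| * |P|) * L ^ 3 := by gcongr
      _ = (|e| * L ^ 4) * K + (|d| * L ^ 2) * (|P| * L) := by ring
      _ ≤ E * K + E * (4 * K) := by gcongr
      _ = 5 * E * K := by ring
  have h3 : |a * P + b * Q| * |e * Q + d * P| ≤ 25 * E ^ 2 * K ^ 2 := by
    have hL3 : 0 < L ^ 3 := by positivity
    have h4 : |a * P + b * Q| * |e * Q + d * P| * L ^ 3 ≤ 25 * E ^ 2 * K ^ 2 * L ^ 3 := by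
      calc |a * P + b * Q| * |e * Q + d * P| * L ^ 3 =
            |a * P + b * Q| * (|e * Q + d * P| * L ^ 3) := by ring
        _ ≤ (5 * E * K * L ^ 3) * (5 * E * K) := by gcongr
        _ = 25 * E ^ 2 * K ^ 2 * L ^ 3 := by ring
    exact le_of_mul_le_mul_right h4 hL3
  rw [abs_mul, abs_mul, abs_of_pos (by norm_num : (0 : ℝ) < 16)]
  linarith

/-- generic forms with a fixed vector -/
theorem pair_count (ε : ℝ) (hε : 0 < ε) : ∃ C : ℝ, 0 ≤ C ∧ ∀ (H K L : ℝ) (P Q : ℤ)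
    (S : Finset (Fm × (ℤ × ℤ))), 1 ≤ H → 1 ≤ K → 0 < L → (∀ T ∈ S, T ∈ GE H K L ∧
      T.2.1 ≠ 0 ∧ T.1.1.1 * T.2.1 + T.1.1.2.1 * T.2.2 ≠ 0 ∧
      T.1.2 * T.2.2 + T.1.1.2.2.2 * T.2.1 ≠ 0 ∧ T.2 = (P, Q)) →
    (S.card : ℝ) ≤ (2 * (4260880 * (12 * (82432 * H)) / K * L) + 1) *
      (2 * (4260880 * (12 * (82432 * H)) / K / L) + 1) * (C * (H * K) ^ ε) := by
  classical
  obtain ⟨C, hC, hd⟩ := idiv_le ε hε 2 (400 * 82432 ^ 2) (by positivity)
  refine ⟨C, hC, ?_⟩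
  intro H K L P Q S hH hK hL hS
  have hH0 : 0 < H := by linarith
  have hK0 : 0 < K := by linarith
  rcases S.eq_empty_or_nonempty with h0 | ⟨⟨⟨⟨a0, b0, c0, d0⟩, e0⟩, P0, Q0⟩, hT0⟩
  · rw [h0, Finset.card_empty]
    push_cast
    positivity
  obtain ⟨ρ, hρ⟩ : ∃ ρ : ℝ, ρ = 4260880 * (12 * (82432 * H)) / K := ⟨_, rfl⟩
  have hρ0 : 0 ≤ ρ := by rw [hρ]; positivity
  rw [← hρ]
  have hbase := hS _ hT0
  simp only [Prod.mk.injEq] at hbase
  obtain ⟨hGE, hP0, -, -, hp1, hp2⟩ := hbase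
  subst hp1 hp2
  have hQ0 : Q0 ≠ 0 := hGE.2.1
  have hdat : ∀ T ∈ S, T.2 = (P0, Q0) ∧ ∃ h1 h2 : ℤ,
      T.1.1.1 * P0 + 4 * T.1.1.2.1 * Q0 = (a0 * P0 + 4 * b0 * Q0) + Q0 ^ 2 * h1 ∧
      4 * T.1.1.2.2.2 * P0 + T.1.2 * Q0 = (4 * d0 * P0 + e0 * Q0) - P0 ^ 2 * h2 ∧
      6 * (T.1.1.2.2.1 - c0) = Q0 * h2 - P0 * h1 ∧ |(h1 : ℝ)| ≤ ρ * L ∧
      |(h2 : ℝ)| ≤ ρ / L := by
    rintro ⟨⟨⟨a, b, c, d⟩, e⟩, P, Q⟩ hT
    have h := hS _ hT
    simp only [Prod.mk.injEq] at h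
    obtain ⟨hG, -, -, -, hp1, hp2⟩ := h
    subst hp1 hp2
    obtain ⟨h0, h1, h2, h3, e1, e2, e3, e4, e5, f1, f2, f3, f4⟩ := diff hH hK hL hG hGE
    refine ⟨rfl, h1, h2, ?_, ?_, e3, ?_, ?_⟩
    · simp only
      linear_combination P * e1 + Q * e2
    · simp only
      linear_combination P * e4 + Q * e5
    · rw [hρ]; exact f2
    · rw [hρ]; exact f3
  have hfib : ∀ T ∈ S, ∀ k1 k2 : ℤ,
      (T.1.1.1 * P0 + 4 * T.1.1.2.1 * Q0 - (a0 * P0 + 4 * b0 * Q0)) / Q0 ^ 2 = k1 →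
      ((4 * d0 * P0 + e0 * Q0) - (4 * T.1.1.2.2.2 * P0 + T.1.2 * Q0)) / P0 ^ 2 = k2 →
      T.1.1.1 * P0 + 4 * T.1.1.2.1 * Q0 = (a0 * P0 + 4 * b0 * Q0) + Q0 ^ 2 * k1 ∧
      4 * T.1.1.2.2.2 * P0 + T.1.2 * Q0 = (4 * d0 * P0 + e0 * Q0) - P0 ^ 2 * k2 ∧
      6 * (T.1.1.2.2.1 - c0) = Q0 * k2 - P0 * k1 ∧ |(k1 : ℝ)| ≤ ρ * L ∧
      |(k2 : ℝ)| ≤ ρ / L := by
    intro T hT k1 k2 h1 h2
    obtain ⟨-, m1, m2, g1, g2, g3, g4, g5⟩ := hdat T hT
    have q1 : k1 = m1 := by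
      rw [← h1, g1, add_sub_cancel_left]
      exact Int.mul_ediv_cancel_left _ (pow_ne_zero 2 hQ0)
    have q2 : k2 = m2 := by
      rw [← h2, g2, sub_sub_cancel]
      exact Int.mul_ediv_cancel_left _ (pow_ne_zero 2 hP0)
    subst q1 q2
    exact ⟨g1, g2, g3, g4, g5⟩
  have hmain := card_fib S (bal (ρ * L) ×ˢ bal (ρ / L))
    (fun T => ((T.1.1.1 * P0 + 4 * T.1.1.2.1 * Q0 - (a0 * P0 + 4 * b0 * Q0)) / Q0 ^ 2,
      ((4 * d0 * P0 + e0 * Q0) - (4 * T.1.1.2.2.2 * P0 + T.1.2 * Q0)) / P0 ^ 2))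
    (C * (H * K) ^ ε) (by positivity) (by
      intro T hT
      obtain ⟨-, -, -, g4, g5⟩ := hfib T hT _ _ rfl rfl
      rw [Finset.mem_product]
      exact ⟨mem_bal _ _ g4, mem_bal _ _ g5⟩) (by
      rintro ⟨k1, k2⟩ _
      rcases (S.filter (fun T => ((T.1.1.1 * P0 + 4 * T.1.1.2.1 * Q0 - (a0 * P0 + 4 * b0 * Q0)) /
        Q0 ^ 2, ((4 * d0 * P0 + e0 * Q0) - (4 * T.1.1.2.2.2 * P0 + T.1.2 * Q0)) / P0 ^ 2) =
          (k1, k2))).eq_empty_or_nonempty with h0 | ⟨T1, hT1⟩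
      · rw [h0, Finset.card_empty]
        push_cast
        positivity
      rw [Finset.mem_filter] at hT1
      obtain ⟨hT1, heq1⟩ := hT1
      simp only [Prod.mk.injEq] at heq1
      obtain ⟨hg1, hg2, hg3, -, -⟩ := hfib T1 hT1 _ _ heq1.1 heq1.2
      obtain ⟨hG1, hP1, hu1, hw1, hp1⟩ := hS T1 hT1
      obtain ⟨a1, ha1⟩ : ∃ a1, a1 = T1.1.1.1 := ⟨_, rfl⟩
      obtain ⟨b1, hb1⟩ : ∃ b1, b1 = T1.1.1.2.1 := ⟨_, rfl⟩
      obtain ⟨c1, hc1⟩ : ∃ c1, c1 = T1.1.1.2.2.1 := ⟨_, rfl⟩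
      obtain ⟨d1, hd1⟩ : ∃ d1, d1 = T1.1.1.2.2.2 := ⟨_, rfl⟩
      obtain ⟨e1, he1⟩ : ∃ e1, e1 = T1.1.2 := ⟨_, rfl⟩
      have hI1 : a1 * e1 - 4 * b1 * d1 + 3 * c1 ^ 2 = 0 := by
        have := hG1.2.2.2.2.2.2.2.1
        unfold invI at this
        rw [← ha1, ← hb1, ← hc1, ← hd1, ← he1] at this
        exact this
      have hB1 := hG1.1
      have hPb := hG1.2.2.2.1
      have hQb := hG1.2.2.2.2.1
      rw [hp1] at hPb hQb hu1 hw1
      simp only at hPb hQb hu1 hw1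
      unfold BoxE at hB1
      rw [← ha1, ← hb1, ← hc1, ← hd1, ← he1] at hB1
      rw [← ha1, ← hb1] at hu1 hg1
      rw [← hd1, ← he1] at hw1 hg2
      rw [← hc1] at hg3
      obtain ⟨f0, f1, f2, f3, f4⟩ := hB1
      obtain ⟨n, hn⟩ : ∃ n : ℤ, n = 16 * ((a1 * P0 + b1 * Q0) * (e1 * Q0 + d1 * P0)) := ⟨_, rfl⟩
      have hn0 : n ≠ 0 := by
        rw [hn]
        exact mul_ne_zero (by norm_num) (mul_ne_zero hu1 hw1)
      have hnb : |(n : ℝ)| ≤ 400 * 82432 ^ 2 * (H * K) ^ 2 := by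
        have h1 := uw_bound (82432 * H) K L a1 b1 d1 e1 P0 Q0 (by positivity) hK0 hL f0 f1 f3 f4
          hPb hQb
        rw [hn]
        push_cast
        refine h1.trans (le_of_eq (by ring))
      refine le_trans ?_ (hd (H * K) n (by nlinarith) hn0 hnb)
      have hle : (S.filter (fun T => ((T.1.1.1 * P0 + 4 * T.1.1.2.1 * Q0 -
          (a0 * P0 + 4 * b0 * Q0)) / Q0 ^ 2, ((4 * d0 * P0 + e0 * Q0) -
          (4 * T.1.1.2.2.2 * P0 + T.1.2 * Q0)) / P0 ^ 2) = (k1, k2))).card ≤ (idiv n).card := by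
        -- the data in the fibre
        have hcom : ∀ a b c d e P Q : ℤ, ((((a, b, c, d), e), (P, Q)) : Fm × (ℤ × ℤ)) ∈
            S.filter (fun T => ((T.1.1.1 * P0 + 4 * T.1.1.2.1 * Q0 -
            (a0 * P0 + 4 * b0 * Q0)) / Q0 ^ 2, ((4 * d0 * P0 + e0 * Q0) -
            (4 * T.1.1.2.2.2 * P0 + T.1.2 * Q0)) / P0 ^ 2) = (k1, k2)) →
            P = P0 ∧ Q = Q0 ∧ c = c1 ∧ a * P0 + 4 * b * Q0 = a1 * P0 + 4 * b1 * Q0 ∧
            4 * d * P0 + e * Q0 = 4 * d1 * P0 + e1 * Q0 ∧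
            16 * ((a * P0 + b * Q0) * (e * Q0 + d * P0)) = n ∧ a * P0 + b * Q0 ≠ 0 := by
          intro a b c d e P Q hT
          rw [Finset.mem_filter] at hT
          obtain ⟨hT, heq⟩ := hT
          simp only [Prod.mk.injEq] at heq
          obtain ⟨hh1, hh2, hh3, -, -⟩ := hfib _ hT _ _ heq.1 heq.2
          obtain ⟨hG, -, hu, -, hp⟩ := hS _ hT
          simp only [Prod.mk.injEq] at hp hh1 hh2 hh3 hu
          obtain ⟨hpP, hpQ⟩ := hp
          subst hpP hpQ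
          have hI : a * e - 4 * b * d + 3 * c ^ 2 = 0 := hG.2.2.2.2.2.2.2.1
          have hc : c = c1 := by omega
          subst hc
          refine ⟨rfl, rfl, rfl, ?_, ?_, ?_, hu⟩
          · rw [hh1, hg1]
          · rw [hh2, hg2]
          · have hβ : a * P + 4 * b * Q = a1 * P + 4 * b1 * Q := by rw [hh1, hg1]
            have hδ : 4 * d * P + e * Q = 4 * d1 * P + e1 * Q := by rw [hh2, hg2]
            have k1 : 16 * ((a * P + b * Q) * (e * Q + d * P)) =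
                4 * ((a * P + 4 * b * Q) * (4 * d * P + e * Q)) - 36 * P * Q * c ^ 2 := by
              linear_combination (12 * P * Q) * hI
            have k2 : 16 * ((a1 * P + b1 * Q) * (e1 * Q + d1 * P)) =
                4 * ((a1 * P + 4 * b1 * Q) * (4 * d1 * P + e1 * Q)) - 36 * P * Q * c ^ 2 := by
              linear_combination (12 * P * Q) * hI1
            rw [k1, hβ, hδ, hn, k2]
        apply Finset.card_le_card_of_injOn (fun T => 4 * (T.1.1.1 * P0 + T.1.1.2.1 * Q0))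
        · rintro ⟨⟨⟨a, b, c, d⟩, e⟩, P, Q⟩ hT
          obtain ⟨-, -, -, -, -, h6, -⟩ := hcom a b c d e P Q hT
          refine mem_idiv hn0 ⟨4 * (e * Q0 + d * P0), ?_⟩
          simp only
          rw [← h6]
          ring
        · rintro ⟨⟨⟨a, b, c, d⟩, e⟩, P, Q⟩ hT ⟨⟨⟨a', b', c', d'⟩, e'⟩, P', Q'⟩ hT' h
          obtain ⟨x1, x2, x3, x4, x5, x6, x7⟩ := hcom a b c d e P Q hT
          obtain ⟨y1, y2, y3, y4, y5, y6, y7⟩ := hcom a' b' c' d' e' P' Q' hT'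
          simp only at h
          have hU : a * P0 + b * Q0 = a' * P0 + b' * Q0 := by omega
          have ha : a = a' := by
            have h1 : (a - a') * P0 = 0 := by
              have : 3 * ((a - a') * P0) = 0 := by linear_combination 4 * hU - x4 + y4
              omega
            have := (mul_eq_zero.1 h1).resolve_right hP0
            omega
          subst ha
          have hb : b = b' := by
            have h1 : (b - b') * Q0 = 0 := by linear_combination hU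
            have := (mul_eq_zero.1 h1).resolve_right hQ0
            omega
          subst hb
          have hW : e * Q0 + d * P0 = e' * Q0 + d' * P0 := by
            have h1 : (a * P0 + b * Q0) * (e * Q0 + d * P0) =
                (a * P0 + b * Q0) * (e' * Q0 + d' * P0) := by omega
            exact mul_left_cancel₀ x7 h1
          have he : e = e' := by
            have h1 : (e - e') * Q0 = 0 := by
              have : 3 * ((e - e') * Q0) = 0 := by linear_combination 4 * hW - x5 + y5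
              omega
            have := (mul_eq_zero.1 h1).resolve_right hQ0
            omega
          subst he
          have hd : d = d' := by
            have h1 : (d - d') * P0 = 0 := by linear_combination hW
            have := (mul_eq_zero.1 h1).resolve_right hP0
            omega
          subst hd
          rw [x1, x2, x3, y1, y2, y3]
      exact_mod_cast hle)
  refine hmain.trans ?_
  rw [Finset.card_product]
  push_cast
  have g1 := card_bal (ρ * L) (by positivity)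
  have g2 := card_bal (ρ / L) (by positivity)
  gcongr

/-- the number of generic forms -/
theorem count_n (ε : ℝ) (hε : 0 < ε) : ∃ C : ℝ, 0 ≤ C ∧ ∀ (H K L : ℝ) (S : Finset (Fm × (ℤ × ℤ))),
    1 ≤ H → 1 ≤ K → 0 < L → L ≤ 1 → (∀ T ∈ S, T ∈ GE H K L ∧ T.2.1 ≠ 0 ∧ T.1.1.1 ≠ 0 ∧
      T.1.1.1 * T.2.1 + T.1.1.2.1 * T.2.2 ≠ 0 ∧ T.1.2 * T.2.2 + T.1.1.2.2.2 * T.2.1 ≠ 0) →
    (S.card : ℝ) ≤ C * (H * K) ^ ε * (H ^ 2 + H * K) := by
  classical
  obtain ⟨C1, hC1, h1⟩ := pair_count (ε / 2) (by positivity)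
  obtain ⟨C2, hC2, h2⟩ := pairs_div (ε / 2) (by positivity)
  obtain ⟨r0, hr0d⟩ : ∃ r0 : ℝ, r0 = 2 * (4260880 * (12 * 82432)) := ⟨_, rfl⟩
  have hr0 : 0 ≤ r0 := by rw [hr0d]; norm_num
  refine ⟨C1 * (27 * r0 ^ 2 + 2 * C2 * r0 + 12 * r0 + C2 + 6), by positivity, ?_⟩
  intro H K L S hH hK hL hL1 hS
  have hH0 : 0 < H := by linarith
  have hK0 : 0 < K := by linarith
  have hHK : 1 ≤ H * K := by nlinarith
  obtain ⟨s, hs⟩ : ∃ s, s = (H * K) ^ (ε / 2) := ⟨_, rfl⟩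
  have hs1 : 1 ≤ s := by rw [hs]; exact Real.one_le_rpow hHK (by positivity)
  have hss : s * s = (H * K) ^ ε := by
    rw [hs, ← Real.rpow_add (by positivity)]
    congr 1
    ring
  rcases S.eq_empty_or_nonempty with h0 | ⟨T0, hT0⟩
  · rw [h0, Finset.card_empty]
    push_cast
    positivity
  obtain ⟨hLK, hHL⟩ : 1 ≤ L * K ∧ 1 ≤ 82432 * H * L ^ 4 := by
    obtain ⟨⟨⟨f0, -⟩, hQ0, -, -, hQ, -⟩, -, ha, -⟩ := hS T0 hT0
    constructor
    · refine le_trans ?_ hQ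
      have := Int.one_le_abs hQ0
      exact_mod_cast this
    · refine le_trans ?_ f0
      have := Int.one_le_abs ha
      exact_mod_cast this
  obtain ⟨W, hW⟩ : ∃ W : Finset (ℤ × ℤ), W = S.image Prod.snd := ⟨_, rfl⟩
  have hWp := h2 H K L hH hK hL hL1 hLK hHL W (by
    intro p hp
    rw [hW, Finset.mem_image] at hp
    obtain ⟨⟨⟨⟨a, b, c, d⟩, e⟩, P, Q⟩, hT, rfl⟩ := hp
    obtain ⟨⟨⟨f0, -⟩, -, -, hP, hQ, -, fv, -⟩, -, ha, -⟩ := hS _ hT
    simp only [val] at f0 hP hQ fv ha ⊢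
    exact ⟨hP, hQ, a, ha, f0, -(4 * b * P ^ 3 + 6 * c * P ^ 2 * Q + 4 * d * P * Q ^ 2 +
          e * Q ^ 3), by linear_combination fv⟩)
  rw [← hs] at hWp
  have hWq : (W.card : ℝ) ≤ 27 * K ^ 2 := by
    have hsub : W ⊆ bal (4 * K / L) ×ˢ bal (L * K) := by
      intro p hp
      rw [hW, Finset.mem_image] at hp
      obtain ⟨T, hT, rfl⟩ := hp
      obtain ⟨⟨-, -, -, hP, hQ, -⟩, -⟩ := hS _ hT
      rw [Finset.mem_product]
      refine ⟨mem_bal _ _ ?_, mem_bal _ _ hQ⟩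
      rw [le_div_iff₀ hL]
      exact hP
    have h3 : (W.card : ℝ) ≤ ((bal (4 * K / L)).card : ℝ) * ((bal (L * K)).card : ℝ) := by
      have := Finset.card_le_card hsub
      rw [Finset.card_product] at this
      exact_mod_cast this
    have h4 := card_bal (4 * K / L) (by positivity)
    have h5 := card_bal (L * K) (by positivity)
    have h6 : 1 ≤ K / L := by
      rw [le_div_iff₀ hL]
      linarith
    have h7 : 2 * (4 * K / L) + 1 ≤ 9 * (K / L) := by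
      have : 2 * (4 * K / L) = 8 * (K / L) := by ring
      linarith
    calc (W.card : ℝ) ≤ _ := h3
      _ ≤ (9 * (K / L)) * (3 * (L * K)) := by
          apply mul_le_mul (h4.trans h7) (h5.trans (by linarith)) (by positivity) (by positivity)
      _ = 27 * K ^ 2 := by field_simp; ring
  obtain ⟨r, hr⟩ : ∃ r : ℝ, r = r0 * H / K := ⟨_, rfl⟩
  have hr1 : 0 ≤ r := by rw [hr]; positivity
  have hrK : r * K = r0 * H := by rw [hr]; field_simp
  obtain ⟨t, ht⟩ : ∃ t : ℝ, t = 1 / L := ⟨_, rfl⟩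
  have ht0 : 0 < t := by rw [ht]; positivity
  have hLt : L * t = 1 := by rw [ht]; field_simp
  have ht1 : 1 ≤ t := by
    rw [ht, le_div_iff₀ hL]
    linarith
  have hmain := card_fib S W (fun T => T.2) ((r * L + 1) * (r * t + 1) * (C1 * s))
    (by positivity) (by
      intro T hT
      rw [hW]
      exact Finset.mem_image_of_mem _ hT) (by
      rintro ⟨P, Q⟩ _
      have := h1 H K L P Q (S.filter (fun T => T.2 = (P, Q))) hH hK hL (by
        intro T hT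
        rw [Finset.mem_filter] at hT
        obtain ⟨g1, g2, g3, g4, g5⟩ := hS T hT.1
        exact ⟨g1, g2, g4, g5, hT.2⟩)
      rw [← hs] at this
      refine this.trans (le_of_eq ?_)
      have e1 : 2 * (4260880 * (12 * (82432 * H)) / K * L) = r * L := by rw [hr, hr0d]; ring
      have e2 : 2 * (4260880 * (12 * (82432 * H)) / K / L) = r * t := by rw [hr, hr0d, ht]; ring
      rw [e1, e2])
  have hexp : (r * L + 1) * (r * t + 1) ≤ r ^ 2 + (2 * (r * t) + 1) := by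
    have e1 : (r * L + 1) * (r * t + 1) = r ^ 2 * (L * t) + r * L + r * t + 1 := by ring
    have e2 : r * L ≤ r * t := by
      have : L ≤ t := hL1.trans ht1
      gcongr
    rw [e1, hLt]
    linarith
  have hB : (W.card : ℝ) * ((r * L + 1) * (r * t + 1)) ≤
      (27 * r0 ^ 2 + 2 * C2 * r0 + 12 * r0 + C2 + 6) * (s * (H ^ 2 + H * K)) := by
    have k0 : (W.card : ℝ) * ((r * L + 1) * (r * t + 1)) ≤ (27 * K ^ 2) * r ^ 2 +
        (C2 * (H * K * L ^ 3) * s + 6 * (L * K)) * (2 * (r * t) + 1) := by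
      calc (W.card : ℝ) * ((r * L + 1) * (r * t + 1)) ≤
            (W.card : ℝ) * (r ^ 2 + (2 * (r * t) + 1)) := by gcongr
        _ = (W.card : ℝ) * r ^ 2 + (W.card : ℝ) * (2 * (r * t) + 1) := by ring
        _ ≤ _ := by gcongr
    have k1 : (27 * K ^ 2) * r ^ 2 = 27 * r0 ^ 2 * H ^ 2 := by
      have : (27 * K ^ 2) * r ^ 2 = 27 * (r * K) ^ 2 := by ring
      rw [this, hrK]
      ring
    have k2 : (C2 * (H * K * L ^ 3) * s + 6 * (L * K)) * (2 * (r * t) + 1) =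
        2 * C2 * s * H * (r * K) * L ^ 2 * (L * t) + 12 * (r * K) * (L * t) +
          C2 * s * (H * K) * L ^ 3 + 6 * (L * K) := by ring
    rw [hLt, hrK] at k2
    rw [k1, k2] at k0
    have hL2' : L ^ 2 ≤ 1 := pow_le_one₀ hL.le hL1
    have hL3' : L ^ 3 ≤ 1 := pow_le_one₀ hL.le hL1
    have k3 : 2 * C2 * s * H * (r0 * H) * L ^ 2 * 1 ≤ 2 * C2 * s * H * (r0 * H) * 1 * 1 := by
      gcongr
    have k4 : C2 * s * (H * K) * L ^ 3 ≤ C2 * s * (H * K) * 1 := by gcongr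
    have k5 : L * K ≤ H * K := by
      have : L ≤ H := hL1.trans hH
      gcongr
    have k6 : H ≤ H ^ 2 := by nlinarith
    have k7 : r0 * H ≤ r0 * H ^ 2 := by gcongr
    have k8 : H ^ 2 ≤ s * H ^ 2 := le_mul_of_one_le_left (by positivity) hs1
    have k9 : H * K ≤ s * (H * K) := le_mul_of_one_le_left (by positivity) hs1
    have k10 : r0 ^ 2 * H ^ 2 ≤ r0 ^ 2 * (s * H ^ 2) := by gcongr
    have k11 : r0 * H ^ 2 ≤ r0 * (s * H ^ 2) := by gcongr
    have k12 : 0 ≤ r0 ^ 2 * (s * (H * K)) := by positivity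
    have k13 : 0 ≤ r0 * (s * (H * K)) := by positivity
    have k14 : 0 ≤ C2 * r0 * (s * (H * K)) := by positivity
    have k15 : 0 ≤ C2 * (s * H ^ 2) := by positivity
    have k16 : 0 ≤ s * H ^ 2 := by positivity
    calc (W.card : ℝ) * ((r * L + 1) * (r * t + 1)) ≤ _ := k0
      _ ≤ 27 * (r0 ^ 2 * (s * H ^ 2)) + (2 * C2 * s * H * (r0 * H) * 1 * 1 +
          12 * (r0 * (s * H ^ 2)) + C2 * s * (H * K) * 1 + 6 * (s * (H * K))) := by linarith
      _ ≤ (27 * r0 ^ 2 + 2 * C2 * r0 + 12 * r0 + C2 + 6) * (s * (H ^ 2 + H * K)) := by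
          have e1 : (27 * r0 ^ 2 + 2 * C2 * r0 + 12 * r0 + C2 + 6) * (s * (H ^ 2 + H * K)) =
            27 * (r0 ^ 2 * (s * H ^ 2)) + (2 * C2 * s * H * (r0 * H) * 1 * 1 +
            12 * (r0 * (s * H ^ 2)) + C2 * s * (H * K) * 1 + 6 * (s * (H * K))) +
            (27 * (r0 ^ 2 * (s * (H * K))) + 12 * (r0 * (s * (H * K))) +
              2 * (C2 * r0 * (s * (H * K))) + C2 * (s * H ^ 2) + 6 * (s * H ^ 2)) := by ring
          rw [e1]
          linarith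
  calc (S.card : ℝ) ≤ W.card * ((r * L + 1) * (r * t + 1) * (C1 * s)) := hmain
    _ = (W.card : ℝ) * ((r * L + 1) * (r * t + 1)) * (C1 * s) := by ring
    _ ≤ ((27 * r0 ^ 2 + 2 * C2 * r0 + 12 * r0 + C2 + 6) * (s * (H ^ 2 + H * K))) * (C1 * s) := by
        gcongr
    _ = C1 * (27 * r0 ^ 2 + 2 * C2 * r0 + 12 * r0 + C2 + 6) * (s * s) * (H ^ 2 + H * K) := by ring
    _ = _ := by rw [hss]

end MA55
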