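import Pool.Agent.LibMA55.C5

set_option autoImplicit false

open HT55

namespace MA55

/-- the number of triples in a dyadic piece -/
theorem tr_count (ε : ℝ) (hε : 0 < ε) : ∃ C : ℝ, 0 ≤ C ∧ ∀ (H K L : ℝ), 1 ≤ H → 1 ≤ K → 0 < L →
    L ≤ 1 → (Tr H K L).Finite ∧ ((Tr H K L).ncard : ℝ) ≤ C * (H * K) ^ ε * (H ^ 2 + H * K) := by
  classical
  obtain ⟨C0, hC0, h0⟩ := count_zero ε hε
  obtain ⟨C1, hC1, h1⟩ := count_a ε hε
  obtain ⟨C2, hC2, h2⟩ := count_u ε hε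
  obtain ⟨C3, hC3, h3⟩ := count_w ε hε
  obtain ⟨C4, hC4, h4⟩ := count_n ε hε
  refine ⟨C0 + C1 + C2 + C3 + C4, by positivity, fun H K L hH hK hL hL1 => ?_⟩
  have hfin := ge_finite H K L hL
  have hsub := tr_sub H K L hH hK hL
  refine ⟨hfin.subset hsub, ?_⟩
  have hH0 : 0 < H := by linarith
  have hK0 : 0 < K := by linarith
  obtain ⟨S, hS⟩ : ∃ S : Finset (Fm × (ℤ × ℤ)), S = hfin.toFinset := ⟨_, rfl⟩
  have hmem : ∀ T ∈ S, T ∈ GE H K L := by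
    intro T hT
    rw [hS, Set.Finite.mem_toFinset] at hT
    exact hT
  have hle1 : ((Tr H K L).ncard : ℝ) ≤ (S.card : ℝ) := by
    have := Set.ncard_le_ncard hsub hfin
    rw [Set.ncard_eq_toFinset_card _ hfin, ← hS] at this
    exact_mod_cast this
  have g0 := h0 H K L (S.filter (fun T => T.2.1 = 0)) hH hK hL hL1 (by
    intro T hT
    rw [Finset.mem_filter] at hT
    exact ⟨hmem T hT.1, hT.2⟩)
  have g1 := h1 H K L (S.filter (fun T => T.1.1.1 = 0)) hH hK hL hL1 (by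
    intro T hT
    rw [Finset.mem_filter] at hT
    exact ⟨hmem T hT.1, hT.2⟩)
  have g2 := h2 H K L (S.filter (fun T => T.2.1 ≠ 0 ∧ T.1.1.1 ≠ 0 ∧
      T.1.1.1 * T.2.1 + T.1.1.2.1 * T.2.2 = 0)) hH hK hL hL1 (by
    intro T hT
    rw [Finset.mem_filter] at hT
    exact ⟨hmem T hT.1, hT.2⟩)
  have g3 := h3 H K L (S.filter (fun T => T.2.1 ≠ 0 ∧ T.1.1.1 ≠ 0 ∧
      T.1.2 * T.2.2 + T.1.1.2.2.2 * T.2.1 = 0)) hH hK hL hL1 (by
    intro T hT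
    rw [Finset.mem_filter] at hT
    exact ⟨hmem T hT.1, hT.2⟩)
  have g4 := h4 H K L (S.filter (fun T => T.2.1 ≠ 0 ∧ T.1.1.1 ≠ 0 ∧
      T.1.1.1 * T.2.1 + T.1.1.2.1 * T.2.2 ≠ 0 ∧ T.1.2 * T.2.2 + T.1.1.2.2.2 * T.2.1 ≠ 0))
      hH hK hL hL1 (by
    intro T hT
    rw [Finset.mem_filter] at hT
    exact ⟨hmem T hT.1, hT.2⟩)
  have hcov : S ⊆ (S.filter (fun T => T.2.1 = 0)) ∪ ((S.filter (fun T => T.1.1.1 = 0)) ∪
      ((S.filter (fun T => T.2.1 ≠ 0 ∧ T.1.1.1 ≠ 0 ∧ T.1.1.1 * T.2.1 + T.1.1.2.1 * T.2.2 = 0)) ∪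
      ((S.filter (fun T => T.2.1 ≠ 0 ∧ T.1.1.1 ≠ 0 ∧ T.1.2 * T.2.2 + T.1.1.2.2.2 * T.2.1 = 0)) ∪
      (S.filter (fun T => T.2.1 ≠ 0 ∧ T.1.1.1 ≠ 0 ∧
      T.1.1.1 * T.2.1 + T.1.1.2.1 * T.2.2 ≠ 0 ∧
        T.1.2 * T.2.2 + T.1.1.2.2.2 * T.2.1 ≠ 0))))) := by
    intro T hT
    simp only [Finset.mem_union, Finset.mem_filter]
    tauto
  have hle2 : (S.card : ℝ) ≤ ((S.filter (fun T => T.2.1 = 0)).card : ℝ) +
      (((S.filter (fun T => T.1.1.1 = 0)).card : ℝ) +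
      (((S.filter (fun T => T.2.1 ≠ 0 ∧ T.1.1.1 ≠ 0 ∧
        T.1.1.1 * T.2.1 + T.1.1.2.1 * T.2.2 = 0)).card : ℝ) +
      (((S.filter (fun T => T.2.1 ≠ 0 ∧ T.1.1.1 ≠ 0 ∧
        T.1.2 * T.2.2 + T.1.1.2.2.2 * T.2.1 = 0)).card : ℝ) +
      ((S.filter (fun T => T.2.1 ≠ 0 ∧ T.1.1.1 ≠ 0 ∧
      T.1.1.1 * T.2.1 + T.1.1.2.1 * T.2.2 ≠ 0 ∧
        T.1.2 * T.2.2 + T.1.1.2.2.2 * T.2.1 ≠ 0)).card : ℝ)))) := by
    have k1 := (Finset.card_le_card hcov).trans ((Finset.card_union_le _ _).trans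
      (Nat.add_le_add_left ((Finset.card_union_le _ _).trans
      (Nat.add_le_add_left ((Finset.card_union_le _ _).trans
      (Nat.add_le_add_left (Finset.card_union_le _ _) _)) _)) _))
    exact_mod_cast k1
  obtain ⟨s, hs⟩ : ∃ s, s = (H * K) ^ ε := ⟨_, rfl⟩
  have hs0 : 0 ≤ s := by rw [hs]; positivity
  rw [← hs] at g0 g1 g2 g3 g4 ⊢
  have hz : 0 ≤ s * (H * K) := by positivity
  have z0 : 0 ≤ C0 * (s * (H * K)) := by positivity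
  have z1 : 0 ≤ C1 * (s * (H * K)) := by positivity
  have z2 : 0 ≤ C2 * (s * (H * K)) := by positivity
  have z3 : 0 ≤ C3 * (s * (H * K)) := by positivity
  calc ((Tr H K L).ncard : ℝ) ≤ C0 * s * H ^ 2 + (C1 * s * H ^ 2 + (C2 * s * H ^ 2 +
        (C3 * s * H ^ 2 + C4 * s * (H ^ 2 + H * K)))) := by linarith
    _ ≤ C0 * s * H ^ 2 + (C1 * s * H ^ 2 + (C2 * s * H ^ 2 +
        (C3 * s * H ^ 2 + C4 * s * (H ^ 2 + H * K)))) + (C0 * (s * (H * K)) +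
          C1 * (s * (H * K)) + C2 * (s * (H * K)) + C3 * (s * (H * K))) := by linarith
    _ = _ := by ring

/-- all the triples with `κ ≤ M` -/
def AllT (H M : ℝ) : Set (Fm × (ℤ × ℤ)) :=
  {T | ∃ lam κ : ℝ, 0 < lam ∧ lam ≤ 1 ∧ 1 < κ ∧ κ ≤ M ∧ Good0 H lam κ T}

private theorem log_pow_two {n : ℕ} {x : ℝ} (hx : (2 : ℝ) ^ n ≤ x) : (n : ℝ) ≤ 2 * Real.log x := by
  have h1 : Real.log ((2 : ℝ) ^ n) ≤ Real.log x := Real.log_le_log (by positivity) hx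
  rw [Real.log_pow] at h1
  have h2 : (1 : ℝ) / 2 ≤ Real.log 2 := by
    have := Real.log_two_gt_d9
    linarith
  have h3 : (n : ℝ) * (1 / 2) ≤ n * Real.log 2 := by gcongr
  linarith

/-- `log x ≤ x^ε/ε` in the form used here -/
private theorem log_bd (ε : ℝ) (hε : 0 < ε) {x : ℝ} (hx : 1 ≤ x) :
    1 + Real.log x ≤ (1 + 1 / ε) * x ^ ε := by
  have h1 := Real.log_le_rpow_div (by linarith : 0 ≤ x) hε
  have h2 : 1 ≤ x ^ ε := Real.one_le_rpow hx hε.le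
  have h3 : x ^ ε / ε = 1 / ε * x ^ ε := by ring
  rw [h3] at h1
  linarith

theorem all_triples (ε : ℝ) (hε : 0 < ε) (hε1 : ε ≤ 1) : ∃ C : ℝ, 0 ≤ C ∧
    ∀ H M : ℝ, 1 ≤ H → 1 ≤ M →
    (AllT H M).Finite ∧ ((AllT H M).ncard : ℝ) ≤ C * (H * M) ^ ε * (H ^ 2 + H * M) := by
  classical
  obtain ⟨C, hC, hdy⟩ := tr_count (ε / 3) (by positivity)
  obtain ⟨b, hb⟩ : ∃ b : ℝ, b = 1 + 1 / (ε / 3) := ⟨_, rfl⟩
  have hb0 : 0 ≤ b := by rw [hb]; positivity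
  refine ⟨16 * b ^ 2 * C, by positivity, fun H M hH hM => ?_⟩
  have hH0 : 0 < H := by linarith
  have hM0 : 0 < M := by linarith
  have hHM : 1 ≤ H * M := by nlinarith
  have hlM : 0 ≤ Real.log M := Real.log_nonneg hM
  obtain ⟨m0, hm1, hm2⟩ := exists_nat_pow_near hM (show (1 : ℝ) < 2 by norm_num)
  set W : Finset (ℕ × ℕ) := Finset.range (m0 + 1) ×ˢ Finset.range (m0 + 1) with hW
  have hsub : AllT H M ⊆ ⋃ p ∈ W, Tr H (2 ^ (p.2 + 1)) ((1 / 2) ^ p.1) := by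
    rintro T ⟨lam, κ, hl0, hl1, hk1, hk2, hgood⟩
    have hlam : 1 ≤ 1 / lam := by rw [le_div_iff₀ hl0]; linarith
    obtain ⟨i, hi1, hi2⟩ := exists_nat_pow_near hlam (show (1 : ℝ) < 2 by norm_num)
    obtain ⟨j, hj1, hj2⟩ := exists_nat_pow_near hk1.le (show (1 : ℝ) < 2 by norm_num)
    have h1 : 1 / lam ≤ M := by
      obtain ⟨-, ⟨hQ0, -, hQ, -⟩, -⟩ := hgood
      have h2 : (1 : ℝ) ≤ |(T.2.2 : ℝ)| := by
        have := Int.one_le_abs hQ0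
        exact_mod_cast this
      rw [div_le_iff₀ hl0]
      calc (1 : ℝ) ≤ lam * κ := h2.trans hQ
        _ ≤ lam * M := by gcongr
        _ = M * lam := by ring
    rw [Set.mem_iUnion₂]
    refine ⟨(i, j), ?_, lam, κ, ?_, ?_, ?_, ?_, hgood⟩
    · rw [hW, Finset.mem_product, Finset.mem_range, Finset.mem_range]
      constructor
      · exact (pow_lt_pow_iff_right₀ (show (1 : ℝ) < 2 by norm_num)).1
          (lt_of_le_of_lt (hi1.trans h1) hm2)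
      · exact (pow_lt_pow_iff_right₀ (show (1 : ℝ) < 2 by norm_num)).1
          (lt_of_le_of_lt (hj1.trans hk2) hm2)
    · have h4 : (0 : ℝ) < 2 ^ (i + 1) := by positivity
      rw [div_lt_iff₀ hl0] at hi2
      show (1 / 2 : ℝ) ^ i / 2 < lam
      rw [one_div, inv_pow, div_lt_iff₀ (by norm_num : (0 : ℝ) < 2), inv_lt_iff_one_lt_mul₀
        (by positivity)]
      calc (1 : ℝ) < 2 ^ (i + 1) * lam := hi2
        _ = lam * 2 * 2 ^ i := by ring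
    · show lam ≤ (1 / 2 : ℝ) ^ i
      rw [le_div_iff₀ hl0] at hi1
      rw [one_div, inv_pow, le_inv_comm₀ hl0 (by positivity)]
      rw [le_inv_comm₀ (by positivity) hl0]
      rw [← one_div, le_div_iff₀ (by positivity)]
      linarith
    · show (2 : ℝ) ^ (j + 1) / 2 ≤ κ
      rw [pow_succ]
      linarith
    · exact hj2.le
  obtain ⟨B, hB⟩ : ∃ B, B = C * (2 * (H * M) ^ (ε / 3)) * (2 * (H ^ 2 + H * M)) := ⟨_, rfl⟩
  have hB0 : 0 ≤ B := by rw [hB]; positivity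
  have hpiece : ∀ p ∈ W, (Tr H (2 ^ (p.2 + 1)) ((1 / 2) ^ p.1)).Finite ∧
      ((Tr H (2 ^ (p.2 + 1)) ((1 / 2) ^ p.1)).ncard : ℝ) ≤ B := by
    intro p hp
    rw [hW, Finset.mem_product, Finset.mem_range, Finset.mem_range] at hp
    obtain ⟨h0, h1⟩ := hdy H (2 ^ (p.2 + 1)) ((1 / 2) ^ p.1) hH (one_le_pow₀ (by norm_num))
      (by positivity) (pow_le_one₀ (by norm_num) (by norm_num))
    refine ⟨h0, h1.trans ?_⟩
    have h2 : (2 : ℝ) ^ (p.2 + 1) ≤ 2 * M := by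
      have h3 : (2 : ℝ) ^ p.2 ≤ 2 ^ m0 := pow_le_pow_right₀ (by norm_num) (by omega)
      rw [pow_succ]
      linarith
    have h3 : (H * 2 ^ (p.2 + 1)) ^ (ε / 3) ≤ 2 * (H * M) ^ (ε / 3) := by
      calc (H * 2 ^ (p.2 + 1)) ^ (ε / 3) ≤ (2 * (H * M)) ^ (ε / 3) := by
            apply Real.rpow_le_rpow (by positivity) _ (by linarith)
            calc H * 2 ^ (p.2 + 1) ≤ H * (2 * M) := by gcongr
              _ = 2 * (H * M) := by ring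
        _ = 2 ^ (ε / 3) * (H * M) ^ (ε / 3) := Real.mul_rpow (by norm_num) (by positivity)
        _ ≤ 2 * (H * M) ^ (ε / 3) := by
            have h4 : (2 : ℝ) ^ (ε / 3) ≤ 2 ^ (1 : ℝ) :=
              Real.rpow_le_rpow_of_exponent_le (by norm_num) (by linarith)
            rw [Real.rpow_one] at h4
            gcongr
    have h4 : H ^ 2 + H * 2 ^ (p.2 + 1) ≤ 2 * (H ^ 2 + H * M) := by
      have h5 : H * 2 ^ (p.2 + 1) ≤ H * (2 * M) := by gcongr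
      nlinarith [sq_nonneg H]
    rw [hB]
    gcongr
  have hfin : (⋃ p ∈ W, Tr H (2 ^ (p.2 + 1)) ((1 / 2) ^ p.1)).Finite :=
    Set.Finite.biUnion (Finset.finite_toSet W) fun p hp => (hpiece p hp).1
  refine ⟨hfin.subset hsub, ?_⟩
  have hm0 : ((m0 + 1 : ℕ) : ℝ) ≤ 2 * (1 + Real.log M) := by
    have h1 := log_pow_two hm1
    push_cast
    linarith
  have hm0' : ((m0 + 1 : ℕ) : ℝ) ≤ 2 * (b * (H * M) ^ (ε / 3)) := by
    have e2 := log_bd (ε / 3) (by positivity) hM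
    rw [← hb] at e2
    have e4 : M ^ (ε / 3) ≤ (H * M) ^ (ε / 3) :=
      Real.rpow_le_rpow hM0.le (le_mul_of_one_le_left hM0.le hH) (by positivity)
    have e5 : b * M ^ (ε / 3) ≤ b * (H * M) ^ (ε / 3) := by gcongr
    linarith
  have hsum : ((⋃ p ∈ W, Tr H (2 ^ (p.2 + 1)) ((1 / 2) ^ p.1)).ncard : ℝ) ≤
      (((m0 + 1 : ℕ) : ℝ) * ((m0 + 1 : ℕ) : ℝ)) * B := by
    have h1 := Finset.set_ncard_biUnion_le W (fun p => Tr H (2 ^ (p.2 + 1)) ((1 / 2) ^ p.1))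
    have hWc : (W.card : ℝ) = ((m0 + 1 : ℕ) : ℝ) * ((m0 + 1 : ℕ) : ℝ) := by
      rw [hW, Finset.card_product, Finset.card_range]
      push_cast
      ring
    calc ((⋃ p ∈ W, Tr H (2 ^ (p.2 + 1)) ((1 / 2) ^ p.1)).ncard : ℝ)
        ≤ ((∑ p ∈ W, (Tr H (2 ^ (p.2 + 1)) ((1 / 2) ^ p.1)).ncard : ℕ) : ℝ) := by
          exact_mod_cast h1
      _ = ∑ p ∈ W, ((Tr H (2 ^ (p.2 + 1)) ((1 / 2) ^ p.1)).ncard : ℝ) := by
          push_cast
          rfl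
      _ ≤ ∑ _p ∈ W, B := Finset.sum_le_sum fun p hp => (hpiece p hp).2
      _ = W.card * B := by rw [Finset.sum_const, nsmul_eq_mul]
      _ = _ := by rw [hWc]
  have hle := Set.ncard_le_ncard hsub hfin
  have hs3 : (H * M) ^ (ε / 3) * (H * M) ^ (ε / 3) * (H * M) ^ (ε / 3) = (H * M) ^ ε := by
    rw [← Real.rpow_add (by positivity), ← Real.rpow_add (by positivity)]
    congr 1
    ring
  calc ((AllT H M).ncard : ℝ) ≤
      ((⋃ p ∈ W, Tr H (2 ^ (p.2 + 1)) ((1 / 2) ^ p.1)).ncard : ℝ) := by exact_mod_cast hle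
    _ ≤ _ := hsum
    _ ≤ ((2 * (b * (H * M) ^ (ε / 3))) * (2 * (b * (H * M) ^ (ε / 3)))) * B := by gcongr
    _ = 16 * b ^ 2 * C * ((H * M) ^ (ε / 3) * (H * M) ^ (ε / 3) * (H * M) ^ (ε / 3)) *
        (H ^ 2 + H * M) := by rw [hB]; ring
    _ = _ := by rw [hs3]

end MA55
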