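import Pool.Agent.LibMA55.T4B
import Pool.Agent.LibHLP.Basis
import Pool.Agent.LibHLP.Inv
import Pool.Agent.LibHLP.NoRoot

set_option autoImplicit false

open Pool.Agent.LibHLP

namespace MA55

private theorem hes_val (x y : ℤ) (u v : ℤ × ℤ) (h : u.1 * v.2 - v.1 * u.2 = 1) :
    hes ((T4 x y 0 u u u u, T4 x y 0 u u u v, T4 x y 0 u u v v, T4 x y 0 u v v v),
      T4 x y 0 v v v v) (v.2, -u.2) = -x := by
  obtain ⟨p, q⟩ := u
  obtain ⟨r, t⟩ := v
  simp only at h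
  have key : hes ((T4 x y 0 (p, q) (p, q) (p, q) (p, q), T4 x y 0 (p, q) (p, q) (p, q) (r, t),
      T4 x y 0 (p, q) (p, q) (r, t) (r, t), T4 x y 0 (p, q) (r, t) (r, t) (r, t)),
      T4 x y 0 (r, t) (r, t) (r, t) (r, t)) (t, -q) = -x * (p * t - r * q) ^ 6 := by
    unfold hes T4
    ring
  simp only
  rw [key, h]
  ring

/-- From an integral point to a reduced form which represents `1`. -/
theorem reduction0 (x y B : ℤ) (H : ℝ) (hH : 1 ≤ H) (hx : 4 * H ^ 2 < (x : ℝ)) (hy : 0 ≤ y)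
    (hB : |(B : ℝ)| ≤ H ^ 3) (hB0 : B ≠ 0) (hE : y ^ 2 = x ^ 3 + B) :
    ∃ (lam κ : ℝ) (T : Fm × (ℤ × ℤ)), 0 < lam ∧ lam ≤ 1 ∧ 1 < κ ∧ κ ^ 2 * H = 4 * √(x : ℝ) ∧
      Good0 H lam κ T ∧ hes T.1 T.2 = -x ∧ invJ T.1 = -4 * B := by
  have hH0 : 0 < H := by linarith
  have hx0 : (0 : ℝ) < x := lt_of_le_of_lt (by positivity) hx
  set s : ℝ := √(x : ℝ) with hs
  have hs0 : 0 < s := Real.sqrt_pos.2 hx0
  have hsx : s ^ 2 = (x : ℝ) := Real.sq_sqrt hx0.le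
  have hs4 : 2 * H < s := by
    have h1 : (2 * H) ^ 2 < s ^ 2 := by
      rw [hsx]
      have h2 : (2 * H) ^ 2 = 4 * H ^ 2 := by ring
      rw [h2]
      exact hx
    exact lt_of_pow_lt_pow_left₀ 2 hs0.le h1
  set κ : ℝ := √(4 * s / H) with hκdef
  have hκsq : κ ^ 2 = 4 * s / H := Real.sq_sqrt (by positivity)
  have hκs : κ ^ 2 * H = 4 * s := by rw [hκsq]; field_simp
  have hκ0 : 0 ≤ κ := Real.sqrt_nonneg _
  have hκ : 1 < κ := by
    have h1 : (1 : ℝ) ^ 2 < κ ^ 2 := by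
      rw [hκsq, lt_div_iff₀ hH0]
      nlinarith
    exact lt_of_pow_lt_pow_left₀ 2 hκ0 h1
  obtain ⟨p1, q1, p2, q2, lam, hl0, hl1, hq1, hdet, hu1, hw1, hu2, hw2⟩ := exists_basis s κ hκ
  have hl0' : 0 ≤ lam := hl0.le
  have hκpos : 0 < κ := by linarith
  have hq1R : (0 : ℝ) < q1 := by exact_mod_cast hq1
  -- the bounds for the two vectors
  have b1 : |(((p1, q1) : ℤ × ℤ).1 : ℝ) - s * ((p1, q1) : ℤ × ℤ).2| * κ ≤ lam := hu1
  have b1' : |(((p1, q1) : ℤ × ℤ).2 : ℝ)| ≤ lam * κ := by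
    show |(q1 : ℝ)| ≤ lam * κ
    rw [abs_of_pos hq1R]
    exact hw1
  have b2 : |(((p2, q2) : ℤ × ℤ).1 : ℝ) - s * ((p2, q2) : ℤ × ℤ).2| * κ ≤ 2 / lam := by
    rw [le_div_iff₀ hl0]
    exact hu2
  have b2' : |(((p2, q2) : ℤ × ℤ).2 : ℝ)| ≤ 2 / lam * κ := by
    rw [div_mul_eq_mul_div, le_div_iff₀ hl0]
    exact hw2
  have T := T4_bound0 x y B H s κ hH hs0 hsx hx hy hB hE hκ.le hκs
  have hcop : IsCoprime p1 q1 := ⟨q2, -p2, by linarith⟩
  have hE' : y ^ 2 = x ^ 3 + 0 * x + B := by linear_combination hE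
  have hd : 4 * (0 : ℤ) ^ 3 + 27 * B ^ 2 ≠ 0 := by
    have : 0 < B ^ 2 := by positivity
    intro h
    linarith
  have ha0 : 16 * H < κ ^ 2 → T4 x y 0 (p1, q1) (p1, q1) (p1, q1) (p1, q1) ≠ 0 := by
    intro hk
    have hx16 : 16 * H ^ 4 < (x : ℝ) := by
      have h1 : 16 * H * H < κ ^ 2 * H := mul_lt_mul_of_pos_right hk hH0
      rw [hκs] at h1
      have h2 : 4 * H ^ 2 < s := by nlinarith
      have h3 : (4 * H ^ 2) ^ 2 < s ^ 2 := by gcongr
      rw [hsx] at h3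
      have h4 : (4 * H ^ 2) ^ 2 = 16 * H ^ 4 := by ring
      rw [h4] at h3
      exact h3
    exact no_root x y 0 B H hH hx16 (by simp; positivity) hB hd hE' p1 q1 hcop hq1
  have ta := T (p1, q1) (p1, q1) (p1, q1) (p1, q1) lam lam lam lam b1 b1' b1 b1' b1 b1' b1 b1'
  have tb := T (p1, q1) (p1, q1) (p1, q1) (p2, q2) lam lam lam (2 / lam)
    b1 b1' b1 b1' b1 b1' b2 b2'
  have tc := T (p1, q1) (p1, q1) (p2, q2) (p2, q2) lam lam (2 / lam) (2 / lam)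
    b1 b1' b1 b1' b2 b2' b2 b2'
  have td := T (p1, q1) (p2, q2) (p2, q2) (p2, q2) lam (2 / lam) (2 / lam) (2 / lam)
    b1 b1' b2 b2' b2 b2' b2 b2'
  have hJ := inv_J x y 0 B (p1, q1) (p2, q2) hdet hE'
  have te := T (p2, q2) (p2, q2) (p2, q2) (p2, q2) (2 / lam) (2 / lam) (2 / lam) (2 / lam)
    b2 b2' b2 b2' b2 b2' b2 b2'
  refine ⟨lam, κ, (((T4 x y 0 (p1, q1) (p1, q1) (p1, q1) (p1, q1),
    T4 x y 0 (p1, q1) (p1, q1) (p1, q1) (p2, q2), T4 x y 0 (p1, q1) (p1, q1) (p2, q2) (p2, q2),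
    T4 x y 0 (p1, q1) (p2, q2) (p2, q2) (p2, q2)), T4 x y 0 (p2, q2) (p2, q2) (p2, q2) (p2, q2)),
    (q2, -q1)),
    hl0, hl1, hκ, hκs, ⟨⟨?_, ?_, ?_, ?_, ?_⟩, ⟨by show -q1 ≠ 0; omega, ?_, ?_, ?_, ?_, ?_⟩,
    (inv_I x y 0 (p1, q1) (p2, q2) hdet).trans (by ring),
    ?_, ha0⟩, hes_val x y (p1, q1) (p2, q2) hdet, hJ⟩
  · refine ta.trans ?_
    have : 0 ≤ H * lam ^ 4 := by positivity
    nlinarith
  · refine tb.trans ?_
    have h1 : 322 * H * (lam * lam * lam * (2 / lam)) = 644 * (H * lam ^ 2) := by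
      field_simp
      ring
    rw [h1]
    have : 0 ≤ H * lam ^ 2 := by positivity
    nlinarith
  · refine tc.trans ?_
    have h1 : 322 * H * (lam * lam * (2 / lam) * (2 / lam)) = 1288 * H := by
      field_simp
      ring
    rw [h1]
    linarith
  · have h1 : 322 * H * (lam * (2 / lam) * (2 / lam) * (2 / lam)) * lam ^ 2 = 2576 * H := by
      field_simp
      ring
    have h2 := mul_le_mul_of_nonneg_right td (sq_nonneg lam)
    rw [h1] at h2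
    linarith
  · have h1 : 322 * H * (2 / lam * (2 / lam) * (2 / lam) * (2 / lam)) * lam ^ 4 = 5152 * H := by
      field_simp
      ring
    have h2 := mul_le_mul_of_nonneg_right te (by positivity : 0 ≤ lam ^ 4)
    rw [h1] at h2
    exact h2
  · exact ⟨p1, p2, by linarith⟩
  · push_cast
    rw [abs_neg, abs_of_pos hq1R]
    exact hw1
  · exact hw2
  · -- the lower bound for the norm
    push_cast
    rw [abs_neg, abs_of_pos hq1R]
    have h1 : ((p1 : ℝ) - s * q1) * q2 - (p2 - s * q2) * q1 = 1 := by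
      have h2 : (p1 : ℝ) * q2 - p2 * q1 = 1 := by exact_mod_cast hdet
      linarith
    have h3 : κ = (((p1 : ℝ) - s * q1) * κ) * q2 - ((p2 - s * q2) * κ) * q1 := by
      linear_combination -κ * h1
    have h4 : |(((p1 : ℝ) - s * q1) * κ) * q2| ≤ lam * |(q2 : ℝ)| := by
      rw [abs_mul, abs_mul, abs_of_pos hκpos]
      exact mul_le_mul_of_nonneg_right hu1 (abs_nonneg _)
    have h5 : |((p2 - s * q2) * κ) * q1| ≤ 2 / lam * q1 := by
      rw [abs_mul, abs_mul, abs_of_pos hκpos, abs_of_pos hq1R]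
      exact mul_le_mul_of_nonneg_right b2 hq1R.le
    have h6 := le_abs_self ((((p1 : ℝ) - s * q1) * κ) * q2)
    have h7 := neg_le_abs (((p2 - s * q2) * κ) * q1)
    have h8 : κ ≤ lam * |(q2 : ℝ)| + 2 / lam * q1 := by linarith
    have h9 : κ * lam ≤ (lam * |(q2 : ℝ)| + 2 / lam * q1) * lam :=
      mul_le_mul_of_nonneg_right h8 hl0.le
    have h10 : (lam * |(q2 : ℝ)| + 2 / lam * q1) * lam = |(q2 : ℝ)| * lam ^ 2 + 2 * q1 := by
      field_simp
    linarith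
  · exact value_one x y 0 (p1, q1) (p2, q2) hdet
  · show invJ _ ≠ 0
    unfold invJ
    simp only
    rw [hJ]
    omega

end MA55
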