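import Pool.Agent.LibMA55.C6
import Pool.Agent.LibMA55.R1

set_option autoImplicit false

namespace MA55

/-- the large points -/
def Tail (H X : ℝ) : Set (ℤ × ℤ) :=
  {P | 4 * H ^ 2 < (P.1 : ℝ) ∧ |(P.1 : ℝ)| ≤ X ∧ P.2 ^ 2 ≠ P.1 ^ 3 ∧
    |(P.2 : ℝ) ^ 2 - (P.1 : ℝ) ^ 3| ≤ H ^ 3}

/-- the point of a triple -/
def pt (T : Fm × (ℤ × ℤ)) : ℤ × ℤ :=
  (-hes T.1 T.2, Int.sqrt ((-hes T.1 T.2) ^ 3 + invJ T.1 / (-4)))

/-- the symmetry -/
def ng (p : ℤ × ℤ) : ℤ × ℤ := (p.1, -p.2)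

theorem tail_pos {H X M : ℝ} (hH : 1 ≤ H) (hM0 : 0 ≤ M) (hM : M ^ 2 = 1 + 4 * (√X / H))
    {x y : ℤ} (hy : 0 ≤ y) (h : (x, y) ∈ Tail H X) : (x, y) ∈ pt '' (AllT H M) := by
  obtain ⟨h1, h2, h3, h4⟩ := h
  simp only at h1 h2 h3 h4
  have hH0 : 0 < H := by linarith
  obtain ⟨B, hB⟩ : ∃ B : ℤ, B = y ^ 2 - x ^ 3 := ⟨_, rfl⟩
  have hB0 : B ≠ 0 := by
    rw [hB]
    exact sub_ne_zero.2 h3
  have hB1 : |(B : ℝ)| ≤ H ^ 3 := by
    rw [hB]
    push_cast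
    exact h4
  obtain ⟨lam, κ, T, hl0, hl1, hk1, hkx, hgood, hhes, hJ⟩ :=
    reduction0 x y B H hH h1 hy hB1 hB0 (by rw [hB]; ring)
  have hkM : κ ≤ M := by
    have h1 : √(x : ℝ) ≤ √X := Real.sqrt_le_sqrt ((le_abs_self _).trans h2)
    have h2 : κ ^ 2 * H ≤ M ^ 2 * H := by
      rw [hkx, hM]
      calc 4 * √(x : ℝ) ≤ 4 * √X := by linarith
        _ = 4 * (√X / H) * H := by field_simp
        _ ≤ (1 + 4 * (√X / H)) * H := by gcongr; linarith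
    have h3 : κ ^ 2 ≤ M ^ 2 := le_of_mul_le_mul_right h2 hH0
    exact le_of_pow_le_pow_left₀ (by norm_num) hM0 h3
  refine ⟨T, ⟨lam, κ, hl0, hl1, hk1, hkM, hgood⟩, ?_⟩
  unfold pt
  rw [hhes, hJ, neg_neg]
  have h5 : -4 * B / -4 = B := Int.mul_ediv_cancel_left _ (by norm_num)
  have h6 : x ^ 3 + B = y * y := by rw [hB]; ring
  rw [h5, h6, Int.sqrt_eq, Int.natAbs_of_nonneg hy]

theorem tail_cover {H X M : ℝ} (hH : 1 ≤ H) (hM0 : 0 ≤ M) (hM : M ^ 2 = 1 + 4 * (√X / H)) :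
    Tail H X ⊆ pt '' (AllT H M) ∪ ng '' (pt '' (AllT H M)) := by
  rintro ⟨x, y⟩ h
  rcases le_total 0 y with hy | hy
  · exact Or.inl (tail_pos hH hM0 hM hy h)
  · right
    refine ⟨(x, -y), tail_pos hH hM0 hM (by omega) ?_, ?_⟩
    · obtain ⟨h1, h2, h3, h4⟩ := h
      refine ⟨h1, h2, ?_, ?_⟩
      · simp only at h3 ⊢
        rw [neg_sq]
        exact h3
      · simp only at h4 ⊢
        push_cast
        rw [neg_sq]
        exact h4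
    · simp only [ng, neg_neg]

theorem tail_count (ε : ℝ) (hε : 0 < ε) (hε1 : ε ≤ 1) : ∃ C : ℝ, 0 ≤ C ∧ ∀ H X : ℝ, 1 ≤ H →
    H ^ 2 ≤ X → (Tail H X).Finite ∧
    ((Tail H X).ncard : ℝ) ≤ C * (H ^ (2 + 2 * ε) + (√(H * √X)) ^ (1 + ε)) := by
  obtain ⟨C, hC, hall⟩ := all_triples ε hε hε1
  refine ⟨36 * C, by positivity, fun H X hH hX => ?_⟩
  have hH0 : 0 < H := by linarith
  have hX0 : 0 ≤ X := le_trans (by positivity) hX
  have hHX : H ≤ √X := Real.le_sqrt_of_sq_le hX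
  obtain ⟨M, hMd⟩ : ∃ M, M = √(1 + 4 * (√X / H)) := ⟨_, rfl⟩
  have hM : M ^ 2 = 1 + 4 * (√X / H) := by rw [hMd]; exact Real.sq_sqrt (by positivity)
  have hM1 : 1 ≤ M := by
    rw [hMd]
    apply Real.one_le_sqrt.2
    have : 0 ≤ √X / H := by positivity
    linarith
  have hM0 : 0 ≤ M := by linarith
  obtain ⟨Z, hZ⟩ : ∃ Z, Z = √(H * √X) := ⟨_, rfl⟩
  have hZ2 : Z ^ 2 = H * √X := by rw [hZ]; exact Real.sq_sqrt (by positivity)
  have hZ0 : 0 ≤ Z := by rw [hZ]; positivity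
  rw [← hZ]
  have hHZ : H ≤ Z := by
    have h1 : H ^ 2 ≤ Z ^ 2 := by
      rw [hZ2, sq]
      gcongr
    exact le_of_pow_le_pow_left₀ (by norm_num) hZ0 h1
  have hZ1 : 1 ≤ Z := hH.trans hHZ
  have hZpos : 0 < Z := by linarith
  have hHM : H * M ≤ 3 * Z := by
    have h1 : (H * M) ^ 2 ≤ (3 * Z) ^ 2 := by
      have h2 : (H * M) ^ 2 = H ^ 2 + 4 * (H * √X) := by
        rw [mul_pow, hM]
        field_simp
      have h3 : H ^ 2 ≤ Z ^ 2 := by gcongr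
      rw [h2, ← hZ2]
      nlinarith
    exact le_of_pow_le_pow_left₀ (by norm_num) (by positivity) h1
  obtain ⟨hfin, hn⟩ := hall H M hH hM1
  have hcov := tail_cover hH hM0 hM
  have hfin2 : (pt '' (AllT H M) ∪ ng '' (pt '' (AllT H M))).Finite :=
    (hfin.image pt).union ((hfin.image pt).image ng)
  refine ⟨hfin2.subset hcov, ?_⟩
  have hle : ((Tail H X).ncard : ℝ) ≤ 2 * ((AllT H M).ncard : ℝ) := by
    have h1 := Set.ncard_le_ncard hcov hfin2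
    have h2 := Set.ncard_union_le (pt '' (AllT H M)) (ng '' (pt '' (AllT H M)))
    have h3 : (pt '' (AllT H M)).ncard ≤ (AllT H M).ncard := Set.ncard_image_le hfin
    have h4 : (ng '' (pt '' (AllT H M))).ncard ≤ (pt '' (AllT H M)).ncard :=
      Set.ncard_image_le (hfin.image pt)
    have h5 : (Tail H X).ncard ≤ 2 * (AllT H M).ncard := by omega
    exact_mod_cast h5
  have hs : (H * M) ^ ε ≤ 3 * Z ^ ε := by
    calc (H * M) ^ ε ≤ (3 * Z) ^ ε := Real.rpow_le_rpow (by positivity) hHM hε.le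
      _ = 3 ^ ε * Z ^ ε := Real.mul_rpow (by norm_num) hZ0
      _ ≤ 3 * Z ^ ε := by
          have h4 : (3 : ℝ) ^ ε ≤ 3 ^ (1 : ℝ) :=
            Real.rpow_le_rpow_of_exponent_le (by norm_num) hε1
          rw [Real.rpow_one] at h4
          gcongr
  have hZe : Z ^ ε * Z = Z ^ (1 + ε) := by
    rw [add_comm, Real.rpow_add hZpos, Real.rpow_one]
  have hP0 : 0 ≤ H ^ (2 + 2 * ε) := by positivity
  have hQ0 : 0 ≤ Z ^ (1 + ε) := by positivity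
  have hZH : Z ^ ε * H ^ 2 ≤ H ^ (2 + 2 * ε) + Z ^ (1 + ε) := by
    rcases le_total Z (H ^ 2) with h | h
    · have h1 : Z ^ ε * H ^ 2 ≤ H ^ (2 + 2 * ε) := by
        calc Z ^ ε * H ^ 2 ≤ (H ^ 2) ^ ε * H ^ 2 := by gcongr
          _ = H ^ (2 + 2 * ε) := by
              rw [← Real.rpow_natCast, ← Real.rpow_mul hH0.le, ← Real.rpow_add hH0]
              congr 1
              push_cast
              ring
      linarith
    · have h1 : Z ^ ε * H ^ 2 ≤ Z ^ ε * Z := by gcongr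
      rw [hZe] at h1
      linarith
  calc ((Tail H X).ncard : ℝ) ≤ 2 * ((AllT H M).ncard : ℝ) := hle
    _ ≤ 2 * (C * (H * M) ^ ε * (H ^ 2 + H * M)) := by gcongr
    _ ≤ 2 * (C * (3 * Z ^ ε) * (H ^ 2 + 3 * Z)) := by gcongr
    _ = 6 * C * (Z ^ ε * H ^ 2) + 18 * C * (Z ^ ε * Z) := by ring
    _ ≤ 6 * C * (H ^ (2 + 2 * ε) + Z ^ (1 + ε)) + 18 * C * Z ^ (1 + ε) := by
        rw [hZe]
        gcongr
    _ ≤ 36 * C * (H ^ (2 + 2 * ε) + Z ^ (1 + ε)) := by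
        have q1 : 0 ≤ C * H ^ (2 + 2 * ε) := by positivity
        have q2 : 0 ≤ C * Z ^ (1 + ε) := by positivity
        nlinarith

end MA55
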