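import Pool.Agent.LibMA55.C7
import Pool.Agent.LibMA44.F1

set_option autoImplicit false

namespace MA55

/-- **The large points**: there are few integral points with `x > 4 K^(2/3)`, `K = H^3`. -/
theorem tailH : Pool.Agent.MA44.TailH := by
  intro ε hε
  obtain ⟨C, hC, htail⟩ := tail_count (min ε 1) (lt_min hε one_pos) (min_le_right _ _)
  refine ⟨C, fun H X hH hX => ?_⟩
  have hH0 : 0 < H := by linarith
  have hX0 : 0 < X := by linarith
  have he : min ε 1 ≤ ε := min_le_left _ _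
  have he0 : 0 < min ε 1 := lt_min hε one_pos
  have hset : {P : ℤ × ℤ | 4 * H ^ 2 < (P.1 : ℝ) ∧ (P.1 : ℝ) ≤ X ∧ P.2 ^ 2 ≠ P.1 ^ 3 ∧
      |(P.2 : ℝ) ^ 2 - (P.1 : ℝ) ^ 3| ≤ H ^ 3} = Tail H X := by
    ext P
    constructor
    · rintro ⟨h1, h2, h3, h4⟩
      refine ⟨h1, ?_, h3, h4⟩
      rw [abs_of_pos (lt_of_le_of_lt (by positivity) h1)]
      exact h2
    · rintro ⟨h1, h2, h3, h4⟩
      exact ⟨h1, (le_abs_self _).trans h2, h3, h4⟩
  rw [hset]
  rcases lt_or_ge X (H ^ 2) with h | h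
  · have h0 : Tail H X = ∅ := by
      ext P
      constructor
      · rintro ⟨h1, h2, -, -⟩
        have h3 := le_abs_self (P.1 : ℝ)
        have h4 : 0 < H ^ 2 := by positivity
        exfalso
        linarith
      · intro h1
        exact absurd h1 (Set.notMem_empty _)
    rw [h0, Set.ncard_empty]
    push_cast
    positivity
  · have h1 := (htail H X hH h).2
    have h2 : H ^ (2 + 2 * min ε 1) ≤ (H ^ 3) ^ ((2 : ℝ) / 3 + ε) := by
      rw [← Real.rpow_natCast H 3, ← Real.rpow_mul hH0.le]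
      apply Real.rpow_le_rpow_of_exponent_le hH
      push_cast
      linarith
    have h3 : √(H * √X) = X ^ ((1 : ℝ) / 4) * H ^ ((1 : ℝ) / 2) := by
      rw [Real.sqrt_mul hH0.le, Real.sqrt_eq_rpow, Real.sqrt_eq_rpow, Real.sqrt_eq_rpow,
        ← Real.rpow_mul hX0.le, mul_comm]
      norm_num
    have h4 : 1 ≤ X ^ ((1 : ℝ) / 4) * H ^ ((1 : ℝ) / 2) :=
      one_le_mul_of_one_le_of_one_le (Real.one_le_rpow hX (by norm_num))
        (Real.one_le_rpow hH (by norm_num))
    rw [h3] at h1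
    refine h1.trans ?_
    apply mul_le_mul_of_nonneg_left _ hC
    apply add_le_add h2
    exact Real.rpow_le_rpow_of_exponent_le h4 (by linarith)

end MA55
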