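import Pool.Agent.LibHT55.R2
import Pool.Agent.LibHLP.Defs

/-!
The number of integral points on all Mordell curves `y^2 = x^3 + k`, `0 < |k| ≤ K`.
-/

set_option autoImplicit false

namespace MA55

/-- the quartic forms `(a, 4 b, 6 c, 4 d, e)` -/
abbrev Fm : Type := (ℤ × ℤ × ℤ × ℤ) × ℤ

/-- The box for the coefficients of the reduced forms. -/
def Box0 (H lam : ℝ) (F : Fm) : Prop :=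
  |(F.1.1 : ℝ)| ≤ 5152 * H * lam ^ 4 ∧ |(F.1.2.1 : ℝ)| ≤ 5152 * H * lam ^ 2 ∧
    |(F.1.2.2.1 : ℝ)| ≤ 5152 * H ∧ |(F.1.2.2.2 : ℝ)| * lam ^ 2 ≤ 5152 * H ∧
    |(F.2 : ℝ)| * lam ^ 4 ≤ 5152 * H

/-- The form represents `1` at the primitive vector `v` of norm about `κ`. -/
def RepV (κ lam : ℝ) (F : Fm) (v : ℤ × ℤ) : Prop :=
  v.2 ≠ 0 ∧ IsCoprime v.1 v.2 ∧ |(v.2 : ℝ)| ≤ lam * κ ∧ |(v.1 : ℝ)| * lam ≤ 2 * κ ∧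
    κ * lam ≤ |(v.1 : ℝ)| * lam ^ 2 + 2 * |(v.2 : ℝ)| ∧ HT55.val F v.1 v.2 = 1

/-- the invariant of degree two -/
def invI (F : Fm) : ℤ := F.1.1 * F.2 - 4 * F.1.2.1 * F.1.2.2.2 + 3 * F.1.2.2.1 ^ 2

/-- the invariant of degree three -/
def invJ (F : Fm) : ℤ :=
  F.1.1 * F.1.2.2.1 * F.2 + 2 * F.1.2.1 * F.1.2.2.1 * F.1.2.2.2 - F.1.1 * F.1.2.2.2 ^ 2
    - F.1.2.1 ^ 2 * F.2 - F.1.2.2.1 ^ 3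

/-- the value of the Hessian -/
def hes (F : Fm) (v : ℤ × ℤ) : ℤ :=
  (F.1.1 * F.1.2.2.1 - F.1.2.1 ^ 2) * v.1 ^ 4
    + 2 * (F.1.1 * F.1.2.2.2 - F.1.2.1 * F.1.2.2.1) * v.1 ^ 3 * v.2
    + (F.1.1 * F.2 + 2 * F.1.2.1 * F.1.2.2.2 - 3 * F.1.2.2.1 ^ 2) * v.1 ^ 2 * v.2 ^ 2
    + 2 * (F.1.2.1 * F.2 - F.1.2.2.1 * F.1.2.2.2) * v.1 * v.2 ^ 3
    + (F.1.2.2.1 * F.2 - F.1.2.2.2 ^ 2) * v.2 ^ 4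

/-- the triples (form, vector) in the count -/
def Good0 (H lam κ : ℝ) (T : Fm × (ℤ × ℤ)) : Prop :=
  Box0 H lam T.1 ∧ RepV κ lam T.1 T.2 ∧ invI T.1 = 0 ∧ invJ T.1 ≠ 0 ∧
    (16 * H < κ ^ 2 → T.1.1.1 ≠ 0)

/-- a dyadic piece -/
def Tr (H K L : ℝ) : Set (Fm × (ℤ × ℤ)) :=
  {T | ∃ lam κ : ℝ, L / 2 < lam ∧ lam ≤ L ∧ K / 2 ≤ κ ∧ κ ≤ K ∧ Good0 H lam κ T}

end MA55
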