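import Pool.Agent.LibMA55.Defs

set_option autoImplicit false

open Pool.Agent.LibHLP

namespace MA55

private lemma t4_prod (a b c d l1 l2 l3 l4 : ℝ) (h1 : |a| ≤ l1) (h2 : |b| ≤ l2) (h3 : |c| ≤ l3)
    (h4 : |d| ≤ l4) : |a * b * c * d| ≤ l1 * l2 * l3 * l4 := by
  have g1 := (abs_nonneg a).trans h1
  have g2 := (abs_nonneg b).trans h2
  have g3 := (abs_nonneg c).trans h3
  rw [abs_mul, abs_mul, abs_mul]
  gcongr

/-- the size of `e = y - s ^ 3` and of `E = 8 s e` -/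
private lemma t4_size (B H s y κ : ℝ) (hH : 1 ≤ H) (hs : 0 < s)
    (hx : 4 * H ^ 2 < s ^ 2) (hy : 0 ≤ y) (hB : |B| ≤ H ^ 3)
    (hE : y ^ 2 = (s ^ 2) ^ 3 + B) (hκs : κ ^ 2 * H = 4 * s) :
    |y - s ^ 3| * κ ^ 2 ≤ 8 * H ∧ |8 * s * (y - s ^ 3)| * κ ^ 4 ≤ 80 * H := by
  obtain ⟨e, he⟩ : ∃ e : ℝ, e = y - s ^ 3 := ⟨_, rfl⟩
  rw [← he]
  have hH0 : 0 < H := by linarith
  have hsH : 2 * H ≤ s := by
    have h1 : (2 * H) ^ 2 ≤ s ^ 2 := by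
      calc (2 * H) ^ 2 = 4 * H ^ 2 := by ring
        _ ≤ s ^ 2 := hx.le
    exact le_of_pow_le_pow_left₀ (by norm_num) hs.le h1
  have hy' : y = s ^ 3 + e := by linarith
  have h1 : e * (2 * s ^ 3 + e) = B := by
    rw [hy'] at hE
    linear_combination hE
  have h2 : 0 ≤ s ^ 3 + e := by rw [← hy']; exact hy
  have hs3 : 0 < s ^ 3 := by positivity
  have h3 : |e| * s ^ 3 ≤ H ^ 3 := by
    have h4 : |e| * s ^ 3 ≤ |e * (2 * s ^ 3 + e)| := by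
      rw [abs_mul]
      apply mul_le_mul_of_nonneg_left _ (abs_nonneg _)
      rw [abs_of_nonneg (by linarith)]
      linarith
    rw [h1] at h4
    exact h4.trans hB
  have h4 : |e| * s ≤ H := by
    have h5 : (|e| * s) * s ^ 2 ≤ H * s ^ 2 := by
      calc (|e| * s) * s ^ 2 = |e| * s ^ 3 := by ring
        _ ≤ H ^ 3 := h3
        _ = H * H ^ 2 := by ring
        _ ≤ H * s ^ 2 := by gcongr; linarith
    exact le_of_mul_le_mul_right h5 (by positivity)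
  have h5 : |e| * κ ^ 2 ≤ 8 * H := by
    have h12 : H * (|e| * κ ^ 2) ≤ H * (8 * H) := by
      calc H * (|e| * κ ^ 2) = |e| * (κ ^ 2 * H) := by ring
        _ = 4 * (|e| * s) := by rw [hκs]; ring
        _ ≤ 4 * H := by linarith
        _ ≤ H * (8 * H) := by nlinarith
    exact le_of_mul_le_mul_left h12 hH0
  refine ⟨h5, ?_⟩
  have h6 : |8 * s * e| * s ^ 2 ≤ 5 * H ^ 3 := by
    have h13 : (8 * s * e) * s ^ 2 = 4 * (B - e ^ 2) := by linear_combination 4 * h1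
    have h14 : e ^ 2 ≤ 1 / 4 := by
      have h15 : |e| ≤ 1 / 2 := by
        have h16 : |e| * (2 * H) ≤ H := by
          calc |e| * (2 * H) ≤ |e| * s := by gcongr
            _ ≤ H := h4
        nlinarith
      have h17 : e ^ 2 = |e| ^ 2 := (sq_abs e).symm
      rw [h17]
      nlinarith [abs_nonneg e]
    have h21 : |8 * s * e| * s ^ 2 = |(8 * s * e) * s ^ 2| := by
      rw [abs_mul (8 * s * e) (s ^ 2), abs_of_nonneg (by positivity : (0 : ℝ) ≤ s ^ 2)]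
    rw [h21, h13, abs_mul]
    have h22 : |B - e ^ 2| ≤ H ^ 3 + 1 / 4 := by
      refine (abs_sub _ _).trans ?_
      rw [abs_of_nonneg (by positivity : (0 : ℝ) ≤ e ^ 2)]
      linarith
    have h23 : |(4 : ℝ)| = 4 := by norm_num
    rw [h23]
    have hH3 : 1 ≤ H ^ 3 := one_le_pow₀ hH
    linarith
  have h24 : H ^ 2 * (|8 * s * e| * κ ^ 4) ≤ H ^ 2 * (80 * H) := by
    calc H ^ 2 * (|8 * s * e| * κ ^ 4) = |8 * s * e| * (κ ^ 2 * H) ^ 2 := by ring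
      _ = 16 * (|8 * s * e| * s ^ 2) := by rw [hκs]; ring
      _ ≤ 16 * (5 * H ^ 3) := by linarith
      _ = _ := by ring
  exact le_of_mul_le_mul_left h24 (by positivity)

private lemma t4_core (H s κ e E a1 a2 a3 a4 q1 q2 q3 q4 l1 l2 l3 l4 L : ℝ) (hH : 1 ≤ H)
    (hκ : 1 ≤ κ) (hκs : κ ^ 2 * H = 4 * s) (he : |e| * κ ^ 2 ≤ 8 * H) (hEb : |E| * κ ^ 4 ≤ 80 * H)
    (hL : L = l1 * l2 * l3 * l4)
    (g1 : |a1 * κ| ≤ l1) (g2 : |a2 * κ| ≤ l2) (g3 : |a3 * κ| ≤ l3) (g4 : |a4 * κ| ≤ l4)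
    (k1 : |q1 / κ| ≤ l1) (k2 : |q2 / κ| ≤ l2) (k3 : |q3 / κ| ≤ l3) (k4 : |q4 / κ| ≤ l4) :
    0 ≤ L ∧ |a1 * a2 * a3 * a4| ≤ L ∧
    (|s * (q1 * a2 * a3 * a4)| ≤ H / 4 * L ∧ |s * (q2 * a1 * a3 * a4)| ≤ H / 4 * L ∧
    |s * (q3 * a1 * a2 * a4)| ≤ H / 4 * L ∧ |s * (q4 * a1 * a2 * a3)| ≤ H / 4 * L) ∧
    (|2 * e * (a1 * q2 * q3 * q4)| ≤ 16 * H * L ∧ |2 * e * (a2 * q1 * q3 * q4)| ≤ 16 * H * L ∧
    |2 * e * (a3 * q1 * q2 * q4)| ≤ 16 * H * L ∧ |2 * e * (a4 * q1 * q2 * q3)| ≤ 16 * H * L) ∧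
    |E * (q1 * q2 * q3 * q4)| ≤ 80 * H * L := by
  have hκ0 : 0 < κ := by linarith
  have hH0 : 0 < H := by linarith
  have hL0 : 0 ≤ L := by
    rw [hL]
    have := (abs_nonneg _).trans g1
    have := (abs_nonneg _).trans g2
    have := (abs_nonneg _).trans g3
    have := (abs_nonneg _).trans g4
    positivity
  have t0 : |a1 * a2 * a3 * a4| ≤ L := by
    have h := t4_prod _ _ _ _ _ _ _ _ g1 g2 g3 g4
    rw [← hL] at h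
    have h' : a1 * κ * (a2 * κ) * (a3 * κ) * (a4 * κ) = (a1 * a2 * a3 * a4) * κ ^ 4 := by ring
    rw [h', abs_mul, abs_of_pos (by positivity : 0 < κ ^ 4)] at h
    have h'' : |a1 * a2 * a3 * a4| * 1 ≤ |a1 * a2 * a3 * a4| * κ ^ 4 :=
      mul_le_mul_of_nonneg_left (one_le_pow₀ hκ) (abs_nonneg _)
    linarith
  have ts : ∀ t : ℝ, |t * κ ^ 2| ≤ L → |s * t| ≤ H / 4 * L := by
    intro t ht
    have h5 : s * t = H / 4 * (t * κ ^ 2) := by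
      have : s = κ ^ 2 * H / 4 := by linarith
      rw [this]; ring
    rw [h5, abs_mul, abs_of_pos (by positivity : 0 < H / 4)]
    exact mul_le_mul_of_nonneg_left ht (by positivity)
  have te : ∀ t : ℝ, |t / κ ^ 2| ≤ L → |2 * e * t| ≤ 16 * H * L := by
    intro t ht
    have h5 : 2 * e * t = 2 * (e * κ ^ 2) * (t / κ ^ 2) := by field_simp
    rw [h5, abs_mul, abs_mul, abs_mul, abs_of_pos (by positivity : 0 < κ ^ 2)]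
    have h23 : |(2 : ℝ)| = 2 := by norm_num
    rw [h23]
    calc 2 * (|e| * κ ^ 2) * |t / κ ^ 2| ≤ 2 * (8 * H) * L :=
          mul_le_mul (by linarith) ht (abs_nonneg _) (by positivity)
      _ = _ := by ring
  refine ⟨hL0, t0, ⟨ts _ ?_, ts _ ?_, ts _ ?_, ts _ ?_⟩, ⟨te _ ?_, te _ ?_, te _ ?_, te _ ?_⟩, ?_⟩
  · have h := t4_prod _ _ _ _ _ _ _ _ k1 g2 g3 g4
    rw [← hL] at h
    have h' : q1 / κ * (a2 * κ) * (a3 * κ) * (a4 * κ) = q1 * a2 * a3 * a4 * κ ^ 2 := by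
      field_simp
    rwa [h'] at h
  · have h := t4_prod _ _ _ _ _ _ _ _ g1 k2 g3 g4
    rw [← hL] at h
    have h' : a1 * κ * (q2 / κ) * (a3 * κ) * (a4 * κ) = q2 * a1 * a3 * a4 * κ ^ 2 := by
      field_simp
    rwa [h'] at h
  · have h := t4_prod _ _ _ _ _ _ _ _ g1 g2 k3 g4
    rw [← hL] at h
    have h' : a1 * κ * (a2 * κ) * (q3 / κ) * (a4 * κ) = q3 * a1 * a2 * a4 * κ ^ 2 := by
      field_simp
    rwa [h'] at h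
  · have h := t4_prod _ _ _ _ _ _ _ _ g1 g2 g3 k4
    rw [← hL] at h
    have h' : a1 * κ * (a2 * κ) * (a3 * κ) * (q4 / κ) = q4 * a1 * a2 * a3 * κ ^ 2 := by
      field_simp
    rwa [h'] at h
  · have h := t4_prod _ _ _ _ _ _ _ _ g1 k2 k3 k4
    rw [← hL] at h
    have h' : a1 * κ * (q2 / κ) * (q3 / κ) * (q4 / κ) = a1 * q2 * q3 * q4 / κ ^ 2 := by
      field_simp
    rwa [h'] at h
  · have h := t4_prod _ _ _ _ _ _ _ _ k1 g2 k3 k4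
    rw [← hL] at h
    have h' : q1 / κ * (a2 * κ) * (q3 / κ) * (q4 / κ) = a2 * q1 * q3 * q4 / κ ^ 2 := by
      field_simp
    rwa [h'] at h
  · have h := t4_prod _ _ _ _ _ _ _ _ k1 k2 g3 k4
    rw [← hL] at h
    have h' : q1 / κ * (q2 / κ) * (a3 * κ) * (q4 / κ) = a3 * q1 * q2 * q4 / κ ^ 2 := by
      field_simp
    rwa [h'] at h
  · have h := t4_prod _ _ _ _ _ _ _ _ k1 k2 k3 g4
    rw [← hL] at h
    have h' : q1 / κ * (q2 / κ) * (q3 / κ) * (a4 * κ) = a4 * q1 * q2 * q3 / κ ^ 2 := by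
      field_simp
    rwa [h'] at h
  · have h := t4_prod _ _ _ _ _ _ _ _ k1 k2 k3 k4
    rw [← hL] at h
    have h5 : E * (q1 * q2 * q3 * q4) = (E * κ ^ 4) *
        (q1 / κ * (q2 / κ) * (q3 / κ) * (q4 / κ)) := by field_simp
    rw [h5, abs_mul, abs_mul, abs_of_pos (by positivity : 0 < κ ^ 4)]
    exact mul_le_mul hEb h (abs_nonneg _) (by positivity)

private lemma t4_sum (t0 t1 t2 t3 t4 t5 t6 t7 t8 t9 M L : ℝ) (hM : L ≤ M) (hL0 : 0 ≤ L)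
    (r0 : |t0| ≤ L) (r1 : |t1| ≤ M / 4) (r2 : |t2| ≤ M / 4) (r3 : |t3| ≤ M / 4)
    (r4 : |t4| ≤ M / 4) (r5 : |t5| ≤ 16 * M) (r6 : |t6| ≤ 16 * M) (r7 : |t7| ≤ 16 * M)
    (r8 : |t8| ≤ 16 * M) (r9 : |t9| ≤ 80 * M) :
    |t0 + (t1 + t2 + t3 + t4) + (t5 + t6 + t7 + t8) + t9| ≤ 322 * M := by
  rw [abs_le] at *
  constructor
  · linarith only [r0.1, r1.1, r2.1, r3.1, r4.1, r5.1, r6.1, r7.1, r8.1, r9.1, hM, hL0]
  · linarith only [r0.2, r1.2, r2.2, r3.2, r4.2, r5.2, r6.2, r7.2, r8.2, r9.2, hM, hL0]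

/-- The size of the quadrilinear form. -/
theorem T4_bound0 (x y B : ℤ) (H s κ : ℝ) (hH : 1 ≤ H) (hs : 0 < s) (hsx : s ^ 2 = (x : ℝ))
    (hx : 4 * H ^ 2 < (x : ℝ)) (hy : 0 ≤ y) (hB : |(B : ℝ)| ≤ H ^ 3)
    (hE : y ^ 2 = x ^ 3 + B) (hκ : 1 ≤ κ) (hκs : κ ^ 2 * H = 4 * s)
    (v1 v2 v3 v4 : ℤ × ℤ) (l1 l2 l3 l4 : ℝ)
    (h1 : |(v1.1 : ℝ) - s * v1.2| * κ ≤ l1) (h1' : |(v1.2 : ℝ)| ≤ l1 * κ)
    (h2 : |(v2.1 : ℝ) - s * v2.2| * κ ≤ l2) (h2' : |(v2.2 : ℝ)| ≤ l2 * κ)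
    (h3 : |(v3.1 : ℝ) - s * v3.2| * κ ≤ l3) (h3' : |(v3.2 : ℝ)| ≤ l3 * κ)
    (h4 : |(v4.1 : ℝ) - s * v4.2| * κ ≤ l4) (h4' : |(v4.2 : ℝ)| ≤ l4 * κ) :
    |(T4 x y 0 v1 v2 v3 v4 : ℝ)| ≤ 322 * H * (l1 * l2 * l3 * l4) := by
  have hκ0 : 0 < κ := by linarith
  have hER : (y : ℝ) ^ 2 = (s ^ 2) ^ 3 + B := by rw [hsx]; exact_mod_cast hE
  have hyR : (0 : ℝ) ≤ y := by exact_mod_cast hy
  obtain ⟨he, hEb⟩ := t4_size B H s y κ hH hs (by rw [hsx]; exact hx) hyR hB hER hκs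
  obtain ⟨e, hedef⟩ : ∃ e : ℝ, e = y - s ^ 3 := ⟨_, rfl⟩
  obtain ⟨E, hEdef⟩ : ∃ E : ℝ, E = 8 * s * (y - s ^ 3) := ⟨_, rfl⟩
  rw [← hEdef] at hEb
  rw [← hedef] at he hEdef
  obtain ⟨p1, q1⟩ := v1
  obtain ⟨p2, q2⟩ := v2
  obtain ⟨p3, q3⟩ := v3
  obtain ⟨p4, q4⟩ := v4
  simp only at h1 h2 h3 h4 h1' h2' h3' h4'
  obtain ⟨a1, ha1⟩ : ∃ a : ℝ, a = (p1 : ℝ) - s * q1 := ⟨_, rfl⟩
  obtain ⟨a2, ha2⟩ : ∃ a : ℝ, a = (p2 : ℝ) - s * q2 := ⟨_, rfl⟩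
  obtain ⟨a3, ha3⟩ : ∃ a : ℝ, a = (p3 : ℝ) - s * q3 := ⟨_, rfl⟩
  obtain ⟨a4, ha4⟩ : ∃ a : ℝ, a = (p4 : ℝ) - s * q4 := ⟨_, rfl⟩
  rw [← ha1] at h1
  rw [← ha2] at h2
  rw [← ha3] at h3
  rw [← ha4] at h4
  have hT : (T4 x y 0 (p1, q1) (p2, q2) (p3, q3) (p4, q4) : ℝ) =
      a1 * a2 * a3 * a4 + (s * (q1 * a2 * a3 * a4) + s * (q2 * a1 * a3 * a4) +
        s * (q3 * a1 * a2 * a4) + s * (q4 * a1 * a2 * a3)) +
        (2 * e * (a1 * q2 * q3 * q4) + 2 * e * (a2 * q1 * q3 * q4) + 2 * e * (a3 * q1 * q2 * q4) +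
        2 * e * (a4 * q1 * q2 * q3)) + E * (q1 * q2 * q3 * q4) := by
    unfold T4
    push_cast
    rw [hEdef, hedef, ha1, ha2, ha3, ha4, ← hsx]
    ring
  rw [hT]
  obtain ⟨L, hL⟩ : ∃ L : ℝ, L = l1 * l2 * l3 * l4 := ⟨_, rfl⟩
  have g : ∀ a l : ℝ, |a| * κ ≤ l → |a * κ| ≤ l := by
    intro a l h; rw [abs_mul, abs_of_pos hκ0]; exact h
  have k : ∀ q l : ℝ, |q| ≤ l * κ → |q / κ| ≤ l := by
    intro q l h; rw [abs_div, abs_of_pos hκ0, div_le_iff₀ hκ0]; exact h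
  obtain ⟨hL0, r0, ⟨r1, r2, r3, r4⟩, ⟨r5, r6, r7, r8⟩, r9⟩ := t4_core H s κ e E a1 a2 a3 a4 q1 q2 q3 q4
    l1 l2 l3 l4 L hH hκ hκs he hEb hL (g _ _ h1) (g _ _ h2) (g _ _ h3) (g _ _ h4)
    (k _ _ h1') (k _ _ h2') (k _ _ h3') (k _ _ h4')
  have hHL : L ≤ H * L := le_mul_of_one_le_left hL0 hH
  have e1 : H / 4 * L = H * L / 4 := by ring
  have e2 : 16 * H * L = 16 * (H * L) := by ring
  have e3 : 80 * H * L = 80 * (H * L) := by ring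
  rw [e1] at r1 r2 r3 r4
  rw [e2] at r5 r6 r7 r8
  rw [e3] at r9
  have e4 : 322 * H * L = 322 * (H * L) := by ring
  rw [← hL, e4]
  exact t4_sum _ _ _ _ _ _ _ _ _ _ _ _ hHL hL0 r0 r1 r2 r3 r4 r5 r6 r7 r8 r9

end MA55
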